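import Pool.Agent.H781Z.FSig.Forms

set_option linter.unusedSectionVars false

namespace Pool.Agent.H781Z.FSig

open AddMonoidAlgebra

lemma length_le_of_isotropic {k V ι : Type} [Field k] [AddCommGroup V] [Module k V] [Fintype ι]
    (B : V →ₗ[k] V →ₗ[k] k) (W J : Submodule k V) (c : ι → V)
    (hW : ∀ a ∈ W, ∀ b ∈ W, B a b = 0)
    (hc : ∀ v, ∃ t : ι → k, v - ∑ i, t i • c i ∈ W)
    (hJ : ∀ v, (∀ v', B v v' = 0) → v ∈ J) :
    Module.length k (V ⧸ J) ≤ 2 * Fintype.card ι := by
  let Θ : V →ₗ[k] (ι → k) × (V ⧸ W) := LinearMap.prod (LinearMap.pi fun i => B.flip (c i)) W.mkQ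
  have hker : LinearMap.ker Θ ≤ J := by
    intro v hv
    rw [LinearMap.mem_ker] at hv
    have h1 : ∀ i, B v (c i) = 0 := fun i => congrFun (congrArg Prod.fst hv) i
    have h2 : v ∈ W := (Submodule.Quotient.mk_eq_zero W).1 (congrArg Prod.snd hv)
    refine hJ v (fun v' => ?_)
    obtain ⟨t, ht⟩ := hc v'
    have := hW v h2 _ ht
    rw [map_sub, map_sum] at this
    simpa [h1] using this
  have a1 : Module.length k (V ⧸ J) ≤ Module.length k (V ⧸ LinearMap.ker Θ) :=
    Module.length_le_of_surjective (Submodule.factor hker) (Submodule.factor_surjective hker)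
  have a2 : Module.length k (V ⧸ LinearMap.ker Θ) ≤ Module.length k ((ι → k) × (V ⧸ W)) :=
    Module.length_le_of_injective ((LinearMap.ker Θ).liftQ Θ le_rfl)
      (by rw [← LinearMap.ker_eq_bot]; exact Submodule.ker_liftQ_eq_bot _ _ _ le_rfl)
  have a3 : Module.length k (ι → k) = Fintype.card ι := by
    rw [Module.length_eq_finrank]; simp
  have a4 : Module.length k (V ⧸ W) ≤ Module.length k (ι → k) := by
    refine Module.length_le_of_surjective (W.mkQ ∘ₗ Fintype.linearCombination k c) ?_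
    intro y
    obtain ⟨v, rfl⟩ := W.mkQ_surjective y
    obtain ⟨t, ht⟩ := hc v
    refine ⟨t, ?_⟩
    rw [LinearMap.comp_apply, Fintype.linearCombination_apply, eq_comm, Submodule.mkQ_apply,
      Submodule.mkQ_apply, Submodule.Quotient.eq]
    exact ht
  rw [Module.length_prod, a3] at a2
  rw [a3] at a4
  calc _ ≤ _ := a1
    _ ≤ _ := a2
    _ ≤ (Fintype.card ι : ℕ∞) + Fintype.card ι := by gcongr
    _ = _ := by ring

variable (p : ℕ) [Fact p.Prime] (e : ℕ)

lemma Phi_resid (m n : Fin 3 → Fin (p ^ e)) :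
    Phi p e (x p (-resid p e F0 n) * x p (resid p e F0 m)) = if n = m then 1 else 0 := by
  rw [← x_add]
  split_ifs with h
  · subst h
    rw [neg_add_cancel]
    have := Phi_x_nsmul p e 0
    rw [smul_zero] at this
    rw [this, x_zero]
  · apply Phi_x_of_not
    rintro ⟨v, hv⟩
    obtain ⟨i, -, hi⟩ := resid_spec p e F0 (resid p e F0 m)
    exact h ((hi n ⟨v, by rw [hv]; abel⟩).trans (hi m ⟨0, by simp⟩).symm)

lemma hom_eq_Phi (M : Submodule (RR p) (KK p)) (hM : ∀ y ∈ RS p, y ∈ M)
    (φ : Frob p e M →ₗ[RR p] RR p) :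
    ∃ h : KK p, ∀ z : M, (φ (toFrob p e z) : KK p) = Phi p e (h * z) := by
  classical
  let t : (Fin 3 → Fin (p ^ e)) → M := fun n =>
    ⟨x p (resid p e F0 n), hM _ (x_mem_RS p (resid_F0_mem p e n))⟩
  let c : (Fin 3 → Fin (p ^ e)) → KK p := fun n => φ (toFrob p e (t n))
  let h : KK p := ∑ n, c n ^ (p ^ e) * x p (-resid p e F0 n)
  have h1 : ∀ m, Phi p e (h * x p (resid p e F0 m)) = c m := by
    intro m
    simp only [h, Finset.sum_mul, map_sum, mul_assoc, Phi_pow_mul, Phi_resid]
    simp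
  refine ⟨h, fun z => ?_⟩
  have h2 := decomp p e (resid p e F0) (resid_spec p e F0) (z : KK p)
  obtain ⟨b, hb⟩ := IsLocalization.exist_integer_multiples_of_finite (nonZeroDivisors (RR p))
    (fun n => Phi p e ((z : KK p) * x p (-resid p e F0 n)))
  choose a ha using hb
  have hb0 : ((b : RR p) : KK p) ≠ 0 := by
    intro h0
    exact nonZeroDivisors.ne_zero b.2 (Subtype.ext h0)
  have ha' : ∀ n, (a n : KK p) = (b : RR p) * Phi p e ((z : KK p) * x p (-resid p e F0 n)) := ha
  have h3 : ((b : RR p) : KK p) ^ (p ^ e) * z = ∑ n, (a n : KK p) ^ (p ^ e) * x p (resid p e F0 n) := by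
    conv_lhs => rw [h2, Finset.mul_sum]
    refine Finset.sum_congr rfl (fun n _ => ?_)
    rw [ha', mul_pow, mul_assoc]
  have h4 : (b : RR p) • toFrob p e z = ∑ n, a n • toFrob p e (t n) := by
    simp only [frob_smul]
    have : (b : RR p) ^ (p ^ e) • z = ∑ n, a n ^ (p ^ e) • t n := by
      apply Subtype.ext
      rw [Submodule.coe_sum]
      exact h3
    rw [this]; rfl
  have h5 := congrArg (fun y => ((φ y : RR p) : KK p)) h4
  simp only [map_smul, map_sum, smul_eq_mul] at h5
  apply mul_left_cancel₀ hb0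
  rw [← Phi_pow_mul, mul_left_comm, h3, Finset.mul_sum, map_sum]
  refine h5.trans ?_
  rw [AddSubmonoidClass.coe_finsetSum]
  refine Finset.sum_congr rfl (fun n _ => ?_)
  rw [mul_left_comm, Phi_pow_mul, h1]
  rfl

lemma mem_RS_of_forall {y : KK p} (hy : ∀ P : PrimeDiv (RR p), y ∈ locAt (KK p) P) : y ∈ RS p := by
  obtain ⟨a, ha⟩ := mem_range_of_forall_locAt y hy
  rw [← ha]; exact a.2

lemma roundUp_nonneg (Δ : EffQDiv (RR p)) (P : PrimeDiv (RR p)) : 0 ≤ roundUp p e Δ P := by
  apply Int.ceil_nonneg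
  refine mul_nonneg ?_ (Δ.2 P)
  have : (1 : ℚ) ≤ (p : ℚ) ^ e :=
    one_le_pow₀ (by exact_mod_cast (Fact.out : p.Prime).one_lt.le)
  linarith

lemma RS_le_sections (Δ : EffQDiv (RR p)) :
    ∀ y ∈ RS p, y ∈ sections (KK p) (roundUp p e Δ) := by
  intro y hy
  by_cases h0 : y = 0
  · rw [h0]; exact zero_mem _
  refine Submodule.subset_span ⟨h0, fun P => ?_⟩
  have h1 := (mem_locAt_iff_ord P h0).1 (RS_le_locAt p P hy)
  have h2 := roundUp_nonneg p e Δ P
  omega

lemma cyclic (Δ : EffQDiv (RR p)) (h0 : KK p) (hh0 : h0 ≠ 0)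
    (H : ∀ P, ord (KK p) P (h0 * piF p (chartAt p P) ^ (p ^ e - 1)) = roundUp p e Δ P) :
    (∀ y ∈ RS p, Phi p e (h0 * y) ∈ RS p) ∧
    ∀ φ : Frob p e (sections (KK p) (roundUp p e Δ)) →ₗ[RR p] RR p, ∃ s ∈ RS p,
      ∀ z, (φ (toFrob p e z) : KK p) = Phi p e (h0 * (s * z)) := by
  have hpi : ∀ P, piF p (chartAt p P) ≠ 0 := fun P => piF_ne_zero p _
  constructor
  · intro y hy
    refine mem_RS_of_forall p (fun P => ?_)
    refine thr_mpr p e (adapted_chartAt p P) h0 ?_ y (RS_le_locAt p P hy)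
    change _ ∈ locAt (KK p) P
    rw [mem_locAt_iff_ord P (mul_ne_zero hh0 (pow_ne_zero _ (hpi P))), H]
    exact roundUp_nonneg p e Δ P
  · intro φ
    obtain ⟨h, hh⟩ := hom_eq_Phi p e _ (RS_le_sections p e Δ) φ
    refine ⟨h / h0, mem_RS_of_forall p (fun P => ?_), fun z => ?_⟩
    · -- a section with the exact pole order at P
      have h1 : (piF p F1 / piF p (chartAt p P)) ^ (p ^ e - 1) ∈ locAt (KK p) P ∧
          (piF p F2 / piF p (chartAt p P)) ^ (p ^ e - 1) ∈ locAt (KK p) P := by
        have h1 := piF_ne_zero p F1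
        have h2 := x_ne_zero p gT
        refine ⟨pow_mem ?_ _, pow_mem ?_ _⟩
        · unfold chartAt
          split_ifs with hP
          · rw [div_self h1]; exact one_mem _
          · have := (mem_locAt_or_inv P (x p gT)).resolve_left hP
            rw [piF2]; convert this using 1; field_simp
        · unfold chartAt
          split_ifs with hP
          · rw [piF2]; convert hP using 1; field_simp
          · rw [div_self (piF_ne_zero p F2)]; exact one_mem _
      obtain ⟨s1, hs1, a1, ha1⟩ := (mem_locAt_iff P _).1 h1.1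
      obtain ⟨s2, hs2, a2, ha2⟩ := (mem_locAt_iff P _).1 h1.2
      have hs : s1 * s2 ∉ P.1.asIdeal := fun h => (P.1.2.mem_or_mem h).elim hs1 hs2
      have hs0 : ((s1 * s2 : RR p) : KK p) ≠ 0 := by
        intro h
        have : s1 * s2 = 0 := Subtype.ext h
        exact hs (this ▸ zero_mem _)
      have hsi : ((s1 * s2 : RR p) : KK p)⁻¹ ∈ locAt (KK p) P :=
        (mem_locAt_iff P _).2 ⟨s1 * s2, hs, 1, by rw [map_one]; exact mul_inv_cancel₀ hs0⟩
      have key : ∀ Q : PrimeDiv (RR p), ((s1 * s2 : RR p) : KK p) *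
          (piF p (chartAt p Q) / piF p (chartAt p P)) ^ (p ^ e - 1) ∈ RS p := by
        intro Q
        conv => enter [2, 2, 1, 1]; unfold chartAt
        split_ifs
        · have : ((s1 * s2 : RR p) : KK p) * (piF p F1 / piF p (chartAt p P)) ^ (p ^ e - 1)
              = (s2 : KK p) * a1 := by
            change (s1 : KK p) * _ = (a1 : KK p) at ha1
            rw [← ha1]; push_cast; ring
          rw [this]; exact mul_mem s2.2 a1.2
        · have : ((s1 * s2 : RR p) : KK p) * (piF p F2 / piF p (chartAt p P)) ^ (p ^ e - 1)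
              = (s1 : KK p) * a2 := by
            change (s2 : KK p) * _ = (a2 : KK p) at ha2
            rw [← ha2]; push_cast; ring
          rw [this]; exact mul_mem s1.2 a2.2
      set s : KK p := ((s1 * s2 : RR p) : KK p) with hsdef
      let z : KK p := s / (h0 * piF p (chartAt p P) ^ (p ^ e - 1))
      have hz0 : z ≠ 0 := div_ne_zero hs0 (mul_ne_zero hh0 (pow_ne_zero _ (hpi P)))
      have hz : z ∈ sections (KK p) (roundUp p e Δ) := by
        refine Submodule.subset_span ⟨hz0, fun Q => ?_⟩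
        rw [← H Q, ← ord_mul Q hz0 (mul_ne_zero hh0 (pow_ne_zero _ (hpi Q))),
          ← mem_locAt_iff_ord Q (mul_ne_zero hz0 (mul_ne_zero hh0 (pow_ne_zero _ (hpi Q))))]
        refine RS_le_locAt p Q ?_
        convert key Q using 1
        have := hpi P
        simp only [z, div_pow]
        field_simp
      have h2 : h * z * piF p (chartAt p P) ^ (p ^ e - 1) ∈ locAt (KK p) P := by
        refine thr_mp p e (adapted_chartAt p P) (h * z) ?_
        intro v hv
        obtain ⟨t, ht, r, hr⟩ := (mem_locAt_iff P v).1 hv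
        have ht0 : (t : KK p) ≠ 0 := by
          intro h
          have : t = 0 := Subtype.ext h
          exact ht (this ▸ zero_mem _)
        have hti : (t : KK p)⁻¹ ∈ locAt (KK p) P :=
          (mem_locAt_iff P _).2 ⟨t, ht, 1, by rw [map_one]; exact mul_inv_cancel₀ ht0⟩
        change (t : KK p) * v = (r : KK p) at hr
        have hmem := (sections (KK p) (roundUp p e Δ)).smul_mem (r * t ^ (p ^ e - 1)) hz
        have h3 := hh ⟨_, hmem⟩
        obtain ⟨n, hn⟩ := Nat.exists_eq_succ_of_ne_zero (q_ne_zero p e)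
        have h4 : h * z * v = (t : KK p)⁻¹ ^ (p ^ e) * (h * ((r * t ^ (p ^ e - 1)) • z)) := by
          change _ = _ * (h * (((r : KK p) * (t : KK p) ^ (p ^ e - 1)) * z))
          rw [← hr, hn]
          simp only [Nat.succ_sub_one, pow_succ, inv_pow]
          field_simp
        change Phi p e _ ∈ locAt (KK p) P
        rw [h4, Phi_pow_mul, ← h3]
        exact mul_mem hti (RS_le_locAt p P (Subtype.property _))
      have h5 : h / h0 = h * z * piF p (chartAt p P) ^ (p ^ e - 1) * s⁻¹ := by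
        have := hpi P
        simp only [z]
        field_simp
      rw [h5]
      exact mul_mem h2 hsi
    · rw [hh]; congr 1; field_simp

lemma exists_h0 {D : PrimeDiv (RR p) →₀ ℤ} (hD : IsCanonicalDivisor (KK p) (ZMod p) 3 D)
    (Δ : EffQDiv (RR p)) (n : ℕ) (g : KK p) (hg : g ≠ 0)
    (H : ∀ P : PrimeDiv (RR p), (n : ℚ) * ((D P : ℚ) + Δ.1 P) = (ord (KK p) P g : ℚ))
    (hn : n ∣ p ^ e - 1) : ∃ h0 : KK p, h0 ≠ 0 ∧
      ∀ P, ord (KK p) P (h0 * piF p (chartAt p P) ^ (p ^ e - 1)) = roundUp p e Δ P := by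
  obtain ⟨f, hf, hDf⟩ := canonical_eq p hD
  obtain ⟨m, hm⟩ := hn
  refine ⟨g ^ m / f ^ (p ^ e - 1), div_ne_zero (pow_ne_zero _ hg) (pow_ne_zero _ hf), fun P => ?_⟩
  have hpi := piF_ne_zero p (chartAt p P)
  rw [ord_mul P (div_ne_zero (pow_ne_zero _ hg) (pow_ne_zero _ hf)) (pow_ne_zero _ hpi),
    ord_div P (pow_ne_zero _ hg) (pow_ne_zero _ hf), ord_pow, ord_pow, ord_pow, roundUp]
  have h1 : ((p : ℚ) ^ e - 1) = (n : ℚ) * m := by
    have h2 : 1 ≤ p ^ e := Nat.pos_of_ne_zero (q_ne_zero p e)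
    have h3 : p ^ e = n * m + 1 := by omega
    have h4 : ((p ^ e : ℕ) : ℚ) = ((n * m + 1 : ℕ) : ℚ) := by rw [h3]
    push_cast at h4
    linarith
  have h2 : ((p : ℚ) ^ e - 1) * Δ.1 P = ((m * ord (KK p) P g - (n * m : ℕ) * D P : ℤ) : ℚ) := by
    rw [h1]; push_cast; rw [← H P]; ring
  rw [h2, Int.ceil_intCast, hm, hDf]
  ring

lemma Phi_mem_max {h : KK p} (H : ∀ y ∈ RS p, Phi p e (h * y) ∈ RS p) {u v : G} (hu : u ∈ SA)
    (hv : v ∉ SA) (huv : u + (p ^ e) • v ∈ SA) (r : RR p) :
    phiLin p e h H (toFrob p e (xr p u hu * r)) ∈ IsLocalRing.maximalIdeal (RR p) := by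
  rw [IsLocalRing.mem_maximalIdeal, mem_nonunits_iff]
  intro hunit
  obtain ⟨t, ht⟩ := hunit.exists_right_inv
  have h1 : Phi p e (h * (x p u * r)) * t = 1 := congrArg Subtype.val ht
  have h2 := H _ (mul_mem (x_mem_RS p huv) r.2)
  have h3 : h * (x p (u + (p ^ e) • v) * r) = x p v ^ (p ^ e) * (h * (x p u * r)) := by
    rw [x_add, x_nsmul]; ring
  rw [h3, Phi_pow_mul] at h2
  apply x_not_mem_RS p hv
  have h4 := mul_mem h2 t.2
  rwa [mul_assoc, h1, mul_one] at h4

/-- the lattice points of low degree -/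
noncomputable def lowSet (q : ℕ) : Finset G :=
  (Fintype.piFinset fun _ => Finset.Ico (0 : ℤ) q).filter
    (fun u => 2 * u 0 ≤ u 1 + u 2 ∧ u 1 + u 2 < q)

lemma mem_lowSet {q : ℕ} {u : G} : u ∈ lowSet q ↔ u ∈ SA ∧ u 1 + u 2 < q := by
  simp only [lowSet, Finset.mem_filter, Fintype.mem_piFinset, Finset.mem_Ico, mem_SA,
    Fin.forall_fin_succ]
  simp
  omega

/-- `R` is spanned by an ideal and a finite set of monomials -/
lemma span_mod (I : Ideal (RR p)) (U : Finset G) (hU : ∀ u ∈ U, u ∈ SA)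
    (hI : ∀ u (hu : u ∈ SA), u ∉ U → xr p u hu ∈ I)
    (hq : ∀ u (_ : u ∈ SA), u ≠ 0 → (p ^ e) • u ∉ U) (r : RR p) :
    ∃ t : U → ZMod p, r - ∑ i, t i • xr p i (hU i i.2) ∈ I := by
  classical
  have hA : ∀ a : AA p, ∃ t : U → ZMod p,
      algebraMap (AA p) (RR p) a - ∑ i, t i • xr p i (hU i i.2) ∈ I := by
    intro a
    induction a using kS_ind with
    | h0 => exact ⟨0, by simp⟩
    | hadd a b ha hb =>
      obtain ⟨s, hs⟩ := ha
      obtain ⟨t, ht⟩ := hb
      refine ⟨s + t, ?_⟩
      have := I.add_mem hs ht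
      convert this using 1
      simp only [map_add, Pi.add_apply, add_smul, Finset.sum_add_distrib]
      ring
    | hx u hu =>
      by_cases h : u ∈ U
      · refine ⟨Pi.single ⟨u, h⟩ 1, ?_⟩
        rw [Finset.sum_eq_single ⟨u, h⟩]
        · simp only [Pi.single_eq_same, one_smul]
          have : algebraMap (AA p) (RR p) (xs p SA u hu) = xr p u hu := rfl
          rw [this, sub_self]; exact zero_mem _
        · intro j _ hj; simp [hj]
        · simp
      · refine ⟨0, ?_⟩
        simp only [Pi.zero_apply, zero_smul, Finset.sum_const_zero, sub_zero]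
        exact hI u hu h
  have hpow : ∀ s : AA p, (algebraMap (AA p) (RR p) s) ^ (p ^ e) -
      algebraMap (ZMod p) (RR p) (aug p s) ^ (p ^ e) ∈ I := by
    intro s
    induction s using kS_ind with
    | h0 => simp
    | hadd a b ha hb =>
      have := I.add_mem ha hb
      convert this using 1
      simp only [map_add, add_pow_char_pow]
      ring
    | hx u hu =>
      rw [aug_xs]
      split_ifs with h
      · subst h; rw [xs_zero]; simp
      · have h1 : algebraMap (AA p) (RR p) (xs p SA u hu) ^ (p ^ e) =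
            xr p ((p ^ e) • u) (nsmul_mem hu _) := Subtype.ext (x_nsmul p _ u).symm
        rw [h1, map_zero, zero_pow (q_ne_zero p e), sub_zero]
        exact hI _ _ (hq u hu h)
  obtain ⟨a, s, hs, h⟩ := (mem_RS p).1 r.2
  have hs0 := ne_zero_of_aug p hs
  have hrs : r * algebraMap (AA p) (RR p) s = algebraMap (AA p) (RR p) a := by
    apply Subtype.ext
    change (r : KK p) * s = a
    rw [h]; field_simp
  obtain ⟨t, ht⟩ := hA (a * s ^ (p ^ e - 1))
  let c : ZMod p := (aug p s ^ (p ^ e))⁻¹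
  have hc : algebraMap (ZMod p) (RR p) c * algebraMap (ZMod p) (RR p) (aug p s) ^ (p ^ e) = 1 := by
    rw [← map_pow, ← map_mul, inv_mul_cancel₀ (pow_ne_zero _ hs), map_one]
  refine ⟨c • t, ?_⟩
  have h1 := I.sub_mem (I.mul_mem_left (algebraMap (ZMod p) (RR p) c) ht)
    (I.mul_mem_left (algebraMap (ZMod p) (RR p) c * r) (hpow s))
  convert h1 using 1
  obtain ⟨n, hn⟩ := Nat.exists_eq_succ_of_ne_zero (q_ne_zero p e)
  have h2 : ∑ i, (c • t) i • xr p i (hU i i.2) =
      algebraMap (ZMod p) (RR p) c * ∑ i, t i • xr p i (hU i i.2) := by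
    rw [← Algebra.smul_def, Finset.smul_sum]
    simp only [Pi.smul_apply, smul_eq_mul, mul_smul]
  rw [h2, map_mul, map_pow, ← hrs]
  rw [hn] at hc ⊢
  simp only [Nat.succ_sub_one, Nat.succ_eq_add_one] at hc ⊢
  linear_combination (-r) * hc

theorem length_le {D : PrimeDiv (RR p) →₀ ℤ} (hD : IsCanonicalDivisor (KK p) (ZMod p) 3 D)
    (Δ : EffQDiv (RR p)) (n : ℕ) (g : KK p) (hg : g ≠ 0)
    (H : ∀ P : PrimeDiv (RR p), (n : ℚ) * ((D P : ℚ) + Δ.1 P) = (ord (KK p) P g : ℚ))
    (hn : n ∣ p ^ e - 1) :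
    Module.length (RR p) (RR p ⧸ splittingIdeal (KK p) p e Δ) ≤ 2 * (lowSet (p ^ e)).card := by
  obtain ⟨h0, hh0, H0⟩ := exists_h0 p e hD Δ n g hg H hn
  obtain ⟨H1, H2⟩ := cyclic p e Δ h0 hh0 H0
  let b0 : RR p →+ ZMod p :=
    { toFun := fun y => augR p (phiLin p e h0 H1 (toFrob p e y))
      map_zero' := by
        have : toFrob p e (0 : RR p) = 0 := rfl
        rw [this, map_zero, map_zero]
      map_add' := by intro a b; rw [frob_add, map_add, map_add] }
  let b1 : RR p →ₗ[ZMod p] ZMod p :=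
    { b0 with map_smul' := fun c y => ZMod.map_smul b0 c y }
  let B : RR p →ₗ[ZMod p] RR p →ₗ[ZMod p] ZMod p := (LinearMap.mul (ZMod p) (RR p)).compr₂ b1
  have hB : ∀ a b, B a b = augR p (phiLin p e h0 H1 (toFrob p e (a * b))) := fun _ _ => rfl
  let W : Ideal (RR p) := Ideal.span {y | ∃ (u : G) (hu : u ∈ SA),
    ((p ^ e : ℕ) : ℤ) ≤ u 1 + u 2 ∧ y = xr p u hu}
  have hW : ∀ a ∈ W, ∀ b ∈ W, ∀ r, B (a * b) r = 0 := by
    intro a ha b hb
    induction ha using Submodule.span_induction with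
    | mem a ha =>
      induction hb using Submodule.span_induction with
      | mem b hb =>
        obtain ⟨u, hu, hu1, rfl⟩ := ha
        obtain ⟨v, hv, hv1, rfl⟩ := hb
        intro r
        have h1 : xr p u hu * xr p v hv = xr p (u + v) (add_mem hu hv) :=
          Subtype.ext (x_add p u v).symm
        rw [hB, h1, ← mem_max_iff]
        have huv := mem_SA.1 (add_mem hu hv)
        simp only [Pi.add_apply] at huv
        by_cases hc : ((p ^ e : ℕ) : ℤ) ≤ u 1 + v 1
        · refine Phi_mem_max p e H1 (v := gT) _ (by rw [mem_SA]; simp [gT]) ?_ r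
          rw [mem_SA]
          simp only [Pi.add_apply, nsmul_app, gT]
          simp only [Matrix.cons_val_zero, Matrix.cons_val_one, Matrix.cons_val]
          omega
        · refine Phi_mem_max p e H1 (v := -gT) _ (by rw [mem_SA]; simp [gT]) ?_ r
          rw [mem_SA]
          simp only [Pi.add_apply, nsmul_app, gT, Pi.neg_apply]
          simp only [Matrix.cons_val_zero, Matrix.cons_val_one, Matrix.cons_val]
          omega
      | zero => intro r; simp
      | add b c _ _ h1 h2 => intro r; rw [mul_add, map_add, LinearMap.add_apply, h1, h2, add_zero]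
      | smul s b _ h1 =>
        intro r
        have := h1 (s * r)
        rw [hB] at this ⊢
        rw [← this]; congr 3; rw [smul_eq_mul]; ring
    | zero => intro r; simp
    | add a c _ _ h1 h2 => intro r; rw [add_mul, map_add, LinearMap.add_apply, h1, h2, add_zero]
    | smul s a _ h1 =>
      intro r
      have := h1 (s * r)
      rw [hB] at this ⊢
      rw [← this]; congr 3; rw [smul_eq_mul]; ring
  have key := length_le_of_isotropic B (W.restrictScalars (ZMod p))
    ((splittingIdeal (KK p) p e Δ).restrictScalars (ZMod p))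
    (fun i : lowSet (p ^ e) => xr p i (mem_lowSet.1 i.2).1)
    (fun a ha b hb => by
      have := hW a ha b hb 1
      rw [hB] at this ⊢
      rwa [mul_one] at this)
    (span_mod p e W (lowSet (p ^ e)) (fun u hu => (mem_lowSet.1 hu).1)
      (fun u hu h => Ideal.subset_span ⟨u, hu, by
        rw [mem_lowSet] at h
        by_contra h2
        exact h ⟨hu, by omega⟩, rfl⟩)
      (fun u hu h0 h => by
        have h1 := (mem_lowSet.1 h).2
        simp only [nsmul_app] at h1
        rw [mem_SA] at hu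
        rw [Ne, eq_zero_iff] at h0
        have h2 : 1 ≤ u 1 + u 2 := by omega
        have hq : (0 : ℤ) < ((p ^ e : ℕ) : ℤ) := by
          exact_mod_cast Nat.pos_of_ne_zero (q_ne_zero p e)
        nlinarith))
    (fun v hv => Ideal.subset_span (by
      intro φ z hz
      obtain ⟨s, hs, h⟩ := H2 φ
      have h1 := hv ⟨s, hs⟩
      rw [hB, ← mem_max_iff] at h1
      convert h1 using 1
      apply Subtype.ext
      rw [h, phiLin_apply, hz, mul_comm s]
      rfl))
  rw [Fintype.card_coe] at key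
  refine le_trans ?_ key
  rw [(Submodule.Quotient.restrictScalarsEquiv (ZMod p) (splittingIdeal (KK p) p e Δ)).length_eq,
    ← Module.length_top, ← Module.length_top (R := ZMod p)]
  exact Submodule.length_le_length_restrictScalars (ZMod p) ⊤

end Pool.Agent.H781Z.FSig
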