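import Pool.Agent.H781Z.FSig.Laurent

set_option linter.unusedSectionVars false

namespace Pool.Agent.H781Z.FSig

open AddMonoidAlgebra

variable (p : ℕ) [Fact p.Prime]

lemma nsmul_app (n : ℕ) (u : G) (i : Fin 3) : (n • u) i = (n : ℤ) * u i := by
  rw [Pi.smul_apply, nsmul_eq_mul]

/-- the free monoid on a lattice basis -/
def chartMon (F : G ≃+ G) : AddSubmonoid G where
  carrier := {u | ∀ i, 0 ≤ F.symm u i}
  zero_mem' := by intro i; simp
  add_mem' := by
    intro a b ha hb i
    rw [map_add, Pi.add_apply]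
    exact add_nonneg (ha i) (hb i)

lemma mem_chartMon {F : G ≃+ G} {u : G} : u ∈ chartMon F ↔ ∀ i, 0 ≤ F.symm u i := Iff.rfl

/-- the coordinate functions of a chart -/
noncomputable def w (F : G ≃+ G) (i : Fin 3) : KK p := x p (F (Pi.single i 1))

/-- the product of the coordinate functions -/
noncomputable def piF (F : G ≃+ G) : KK p := x p (F 1)

lemma x_eq_prod {F : G ≃+ G} {u : G} (hu : u ∈ chartMon F) :
    x p u = ∏ i, w p F i ^ (F.symm u i).toNat := by
  have : u = ∑ i, (F.symm u i).toNat • F (Pi.single i 1) := by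
    apply F.symm.injective
    rw [map_sum]
    ext j
    simp only [map_nsmul, F.symm_apply_apply, Finset.sum_apply, nsmul_app]
    rw [Finset.sum_eq_single j]
    · simp [Int.toNat_of_nonneg (hu j)]
    · intro i _ hij
      simp [hij.symm]
    · simp
  conv_lhs => rw [this, x_sum]
  simp only [x_nsmul, w]

lemma kS_le_of_w_mem (F : G ≃+ G) (V : Subring (KK p)) (h : ∀ i, w p F i ∈ V) {y : KK p}
    (hy : y ∈ kS p (chartMon F)) : y ∈ V := by
  refine kS_induction p (P := fun y => y ∈ V) V.zero_mem (fun a b _ _ ha hb => V.add_mem ha hb)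
    ?_ hy
  intro u hu
  rw [x_eq_prod p hu]
  exact V.prod_mem (fun i _ => V.pow_mem (h i) _)

lemma piF_ne_zero (F : G ≃+ G) : piF p F ≠ 0 := x_ne_zero p _

/-- A subring of the function field which is a localization of the chart ring. -/
structure Adapted (F : G ≃+ G) (V : Subring (KK p)) : Prop where
  w_mem : ∀ i, w p F i ∈ V
  frac : ∀ v ∈ V, ∃ a ∈ kS p (chartMon F), ∃ s ∈ kS p (chartMon F), s ≠ 0 ∧ s⁻¹ ∈ V ∧ v = a / s

variable (e : ℕ)

lemma thr_mp {F : G ≃+ G} {V : Subring (KK p)} (hV : Adapted p F V) (h : KK p)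
    (H : ∀ v ∈ V, Phi p e (h * v) ∈ V) : h * piF p F ^ (p ^ e - 1) ∈ V := by
  rw [decomp p e (resid p e F) (resid_spec p e F) (h * piF p F ^ (p ^ e - 1))]
  refine V.sum_mem (fun n _ => V.mul_mem (V.pow_mem ?_ _) ?_)
  · rw [mul_assoc]
    apply H
    rw [piF, ← x_nsmul, ← x_add]
    refine kS_le_of_w_mem p F V hV.w_mem (x_mem_kS p ?_)
    intro i
    rw [map_add, map_nsmul, map_neg, resid, F.symm_apply_apply, F.symm_apply_apply]
    have := (n i).2
    simp only [Pi.add_apply, nsmul_app, Pi.one_apply, Pi.neg_apply, mul_one]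
    omega
  · refine kS_le_of_w_mem p F V hV.w_mem (x_mem_kS p ?_)
    intro i
    rw [resid, F.symm_apply_apply]
    positivity

lemma Phi_chart {F : G ≃+ G} {a : KK p} (ha : a ∈ kS p (chartMon F)) :
    Phi p e (a / piF p F ^ (p ^ e - 1)) ∈ kS p (chartMon F) := by
  refine kS_induction p (P := fun a => Phi p e (a / piF p F ^ (p ^ e - 1)) ∈ kS p (chartMon F))
    (by simp) (fun a b _ _ ha hb => by rw [add_div, map_add]; exact add_mem ha hb) ?_ ha
  intro u hu
  rw [piF, ← x_nsmul, ← x_sub]
  by_cases hv : ∃ v : G, (p ^ e) • v = u - (p ^ e - 1) • F 1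
  · obtain ⟨v, hv⟩ := hv
    rw [← hv, Phi_x_nsmul]
    refine x_mem_kS p (fun i => ?_)
    have h0 := congrArg F.symm hv
    rw [map_nsmul, map_sub, map_nsmul, F.symm_apply_apply] at h0
    have h1 := congrFun h0 i
    simp only [nsmul_app, Pi.sub_apply, Pi.one_apply, mul_one] at h1
    have h2 := hu i
    have hq : 0 < p ^ e := Nat.pos_of_ne_zero (q_ne_zero p e)
    have h3 : ((p ^ e - 1 : ℕ) : ℤ) = ((p ^ e : ℕ) : ℤ) - 1 := by omega
    rw [h3] at h1
    by_contra hneg
    have h4 : F.symm v i ≤ -1 := by omega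
    have h5 : (0 : ℤ) < ((p ^ e : ℕ) : ℤ) := by exact_mod_cast hq
    nlinarith
  · rw [Phi_x_of_not p e hv]; exact zero_mem _

lemma thr_mpr {F : G ≃+ G} {V : Subring (KK p)} (hV : Adapted p F V) (h : KK p)
    (H : h * piF p F ^ (p ^ e - 1) ∈ V) : ∀ v ∈ V, Phi p e (h * v) ∈ V := by
  intro v hv
  obtain ⟨a, ha, s, hs, hs0, hsi, has⟩ := hV.frac _ (V.mul_mem H hv)
  have hpi := piF_ne_zero p F
  obtain ⟨n, hn⟩ := Nat.exists_eq_succ_of_ne_zero (q_ne_zero p e)
  have : h * v = (s⁻¹) ^ (p ^ e) * ((a * s ^ (p ^ e - 1)) / piF p F ^ (p ^ e - 1)) := by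
    have h2 : h * v = a / s / piF p F ^ (p ^ e - 1) := by
      rw [← has]; field_simp
    rw [h2, hn]
    simp only [Nat.succ_sub_one, pow_succ, inv_pow]
    field_simp
  rw [this, Phi_pow_mul]
  exact V.mul_mem hsi (kS_le_of_w_mem p F V hV.w_mem
    (Phi_chart p e (mul_mem ha (pow_mem hs _))))

/-! Differential forms -/

abbrev Om : Type := KaehlerDifferential (ZMod p) (KK p)

noncomputable abbrev dd : Derivation (ZMod p) (KK p) (Om p) := KaehlerDifferential.D _ _

lemma dd_chart {F : G ≃+ G} {V : Subring (KK p)} (hV : Adapted p F V) {v : KK p} (hv : v ∈ V) :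
    ∃ c : Fin 3 → KK p, (∀ i, c i ∈ V) ∧ dd p v = ∑ i, c i • dd p (w p F i) := by
  let Q : KK p → Prop := fun v =>
    v ∈ V ∧ ∃ c : Fin 3 → KK p, (∀ i, c i ∈ V) ∧ dd p v = ∑ i, c i • dd p (w p F i)
  have hone : Q 1 := ⟨V.one_mem, 0, fun _ => V.zero_mem, by simp⟩
  have hmul : ∀ a b, Q a → Q b → Q (a * b) := by
    rintro a b ⟨ha, c, hc, h1⟩ ⟨hb, d, hd, h2⟩
    refine ⟨V.mul_mem ha hb, fun i => a * d i + b * c i,
      fun i => V.add_mem (V.mul_mem ha (hd i)) (V.mul_mem hb (hc i)), ?_⟩
    rw [Derivation.leibniz, h1, h2, Finset.smul_sum, Finset.smul_sum, ← Finset.sum_add_distrib]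
    simp only [add_smul, mul_smul]
  have hpow : ∀ a n, Q a → Q (a ^ n) := by
    intro a n ha
    induction n with
    | zero => simpa using hone
    | succ n ih => rw [pow_succ]; exact hmul _ _ ih ha
  have hw : ∀ i, Q (w p F i) := by
    intro i
    refine ⟨hV.w_mem i, Pi.single i 1, ?_, ?_⟩
    · intro j
      by_cases h : j = i
      · subst h; simp
      · simp [h]
    · rw [Finset.sum_eq_single i]
      · simp
      · intro j _ hj; simp [hj]
      · simp
  have hk : ∀ a ∈ kS p (chartMon F), Q a := by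
    intro a ha
    refine kS_induction p (P := Q) ⟨V.zero_mem, 0, fun _ => V.zero_mem, by simp⟩ ?_ ?_ ha
    · rintro a b - - ⟨ha, c, hc, h1⟩ ⟨hb, d, hd, h2⟩
      refine ⟨V.add_mem ha hb, c + d, fun i => V.add_mem (hc i) (hd i), ?_⟩
      rw [map_add, h1, h2, ← Finset.sum_add_distrib]
      simp only [Pi.add_apply, add_smul]
    · intro u hu
      rw [x_eq_prod p hu]
      exact Finset.prod_induction _ Q hmul hone (fun i _ => hpow _ _ (hw i))
  obtain ⟨a, ha, s, hs, hs0, hsi, rfl⟩ := hV.frac _ hv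
  have hinv : Q s⁻¹ := by
    obtain ⟨_, c, hc, h1⟩ := hk s hs
    refine ⟨hsi, fun i => -(s⁻¹ ^ 2) * c i,
      fun i => V.mul_mem (V.neg_mem (V.pow_mem hsi 2)) (hc i), ?_⟩
    rw [Derivation.leibniz_inv, h1, Finset.smul_sum]
    simp only [mul_smul]
  rw [div_eq_mul_inv]
  exact (hmul _ _ (hk a ha) hinv).2

lemma alt_det {K M N : Type} [Field K] [AddCommGroup M] [Module K M] [AddCommGroup N] [Module K N]
    (f : M [⋀^Fin 3]→ₗ[K] N) (c : Matrix (Fin 3) (Fin 3) K) (ω : Fin 3 → M) :
    f (fun i => ∑ j, c i j • ω j) = c.det • f ω := by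
  rw [← sub_eq_zero, ← Module.forall_dual_apply_eq_zero_iff K]
  intro φ
  let g : (Fin 3 → K) [⋀^Fin 3]→ₗ[K] K :=
    (φ.compAlternatingMap f).compLinearMap (Fintype.linearCombination K ω)
  have h1 := g.eq_smul_basis_det (Pi.basisFun K (Fin 3))
  have h2 : g c = g (Pi.basisFun K (Fin 3)) • c.det := by
    conv_lhs => rw [h1, Pi.basisFun_det]
    rfl
  have h3 : g c = φ (f (fun i => ∑ j, c i j • ω j)) := by
    simp only [g, AlternatingMap.compLinearMap_apply, LinearMap.compAlternatingMap_apply,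
      Fintype.linearCombination_apply]
  have h4 : g (Pi.basisFun K (Fin 3)) = φ (f ω) := by
    simp only [g, AlternatingMap.compLinearMap_apply, LinearMap.compAlternatingMap_apply,
      Pi.basisFun_apply, Fintype.linearCombination_apply_single, one_smul]
  rw [map_sub, map_smul, ← h3, h2, h4, smul_eq_mul, smul_eq_mul, mul_comm, sub_self]

/-- the top form of a chart -/
noncomputable def topForm (F : G ≃+ G) : ⋀[KK p]^3 (Om p) :=
  exteriorPower.ιMulti (KK p) 3 (fun i => dd p (w p F i))

lemma wedge_chart {F : G ≃+ G} {V : Subring (KK p)} (hV : Adapted p F V) (v : Fin 3 → KK p)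
    (hv : ∀ i, v i ∈ V) :
    ∃ c ∈ V, exteriorPower.ιMulti (KK p) 3 (fun i => dd p (v i)) = c • topForm p F := by
  choose c hc h using fun i => dd_chart p hV (hv i)
  refine ⟨(Matrix.of c).det, ?_, ?_⟩
  · rw [Matrix.det_apply']
    exact V.sum_mem (fun σ _ => V.mul_mem (intCast_mem V _) (V.prod_mem (fun i _ => hc _ _)))
  · simp only [h]
    exact alt_det _ (Matrix.of c) _

lemma adapted_top (F : G ≃+ G) : Adapted p F ⊤ := by
  refine ⟨fun _ => trivial, fun v _ => ?_⟩
  obtain ⟨a, ha, b, hb, hb0, h⟩ := exists_frac p (S := chartMon F) (fun u =>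
    ⟨F (fun i => |F.symm u i|), fun i => by simp, fun i => by
      rw [map_add, F.symm_apply_apply, Pi.add_apply]
      have := neg_abs_le (F.symm u i)
      omega⟩) v
  exact ⟨a, ha, b, hb, hb0, trivial, h⟩

lemma exists_smul_topForm (F : G ≃+ G) (η : ⋀[KK p]^3 (Om p)) : ∃ c : KK p, η = c • topForm p F := by
  have h1 : ∀ ω : Om p, ∃ c : Fin 3 → KK p, ω = ∑ j, c j • dd p (w p F j) := by
    intro ω
    have : ω ∈ Submodule.span (KK p) (Set.range (dd p)) := by
      rw [KaehlerDifferential.span_range_derivation]; trivial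
    induction this using Submodule.span_induction with
    | mem y hy =>
      obtain ⟨v, rfl⟩ := hy
      obtain ⟨c, -, hc⟩ := dd_chart p (adapted_top p F) (v := v) trivial
      exact ⟨c, hc⟩
    | zero => exact ⟨0, by simp⟩
    | add a b _ _ ha hb =>
      obtain ⟨c, rfl⟩ := ha
      obtain ⟨d, rfl⟩ := hb
      exact ⟨c + d, by simp only [Pi.add_apply, add_smul, Finset.sum_add_distrib]⟩
    | smul a b _ hb =>
      obtain ⟨d, rfl⟩ := hb
      exact ⟨a • d, by simp only [Pi.smul_apply, smul_eq_mul, mul_smul, Finset.smul_sum]⟩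
  have : η ∈ Submodule.span (KK p) (Set.range (exteriorPower.ιMulti (KK p) 3 (M := Om p))) := by
    rw [exteriorPower.ιMulti_span]; trivial
  induction this using Submodule.span_induction with
  | mem y hy =>
    obtain ⟨v, rfl⟩ := hy
    choose c hc using fun i => h1 (v i)
    refine ⟨(Matrix.of c).det, ?_⟩
    have : v = fun i => ∑ j, c i j • dd p (w p F j) := funext hc
    rw [this]
    exact alt_det _ (Matrix.of c) _
  | zero => exact ⟨0, by simp⟩
  | add a b _ _ ha hb =>
    obtain ⟨c, rfl⟩ := ha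
    obtain ⟨d, rfl⟩ := hb
    exact ⟨c + d, by rw [add_smul]⟩
  | smul a b _ hb =>
    obtain ⟨d, rfl⟩ := hb
    exact ⟨a * d, by rw [mul_smul]⟩

/-- logarithmic differential of a monomial -/
noncomputable def dlog : G →+ Om p where
  toFun u := (x p u)⁻¹ • dd p (x p u)
  map_zero' := by simp [x_zero]
  map_add' u v := by
    have hu := x_ne_zero p u
    have hv := x_ne_zero p v
    rw [x_add, Derivation.leibniz, smul_add, smul_smul, smul_smul, add_comm]
    congr 2 <;> field_simp

lemma dd_x (u : G) : dd p (x p u) = x p u • dlog p u := by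
  change _ = x p u • ((x p u)⁻¹ • dd p (x p u))
  rw [smul_smul, mul_inv_cancel₀ (x_ne_zero p u), one_smul]

/-- the invariant top form -/
noncomputable def eta0 : ⋀[KK p]^3 (Om p) :=
  exteriorPower.ιMulti (KK p) 3 (fun i => dlog p (Pi.single i 1))

lemma dlog_eq (u : G) : dlog p u = ∑ j, ((u j : ℤ) : KK p) • dlog p (Pi.single j 1) := by
  have : u = ∑ j, u j • (Pi.single j 1 : G) := by
    ext i
    simp [Finset.sum_apply, Pi.single_apply]
  conv_lhs => rw [this, map_sum]
  simp only [map_zsmul, Int.cast_smul_eq_zsmul]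

lemma topForm_eq (F : G ≃+ G) :
    topForm p F = (piF p F * (((Matrix.of fun i j => F (Pi.single i 1) j).det : ℤ) : KK p)) •
      eta0 p := by
  have h1 : (fun i => dd p (w p F i)) = fun i => ∑ j,
      (Matrix.of fun i j => w p F i * ((F (Pi.single i 1) j : ℤ) : KK p)) i j •
        dlog p (Pi.single j 1) := by
    ext i
    rw [w, dd_x, dlog_eq, Finset.smul_sum]
    simp only [Matrix.of_apply, mul_smul, w]
  rw [topForm, h1, alt_det, eta0]
  congr 1
  have h2 : piF p F = ∏ i, w p F i := by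
    rw [piF, x_eq_prod p (F := F) (u := F 1) (fun i => by simp)]
    simp
  have h3 := Matrix.det_mul_column (fun i => w p F i)
    (Matrix.of fun i j => ((F (Pi.single i 1) j : ℤ) : KK p))
  rw [h2, Int.cast_det]
  exact h3

/-! the invariant form is nonzero -/

noncomputable def psiL (j : Fin 3) : LL p →ₐ[ZMod p] TrivSqZeroExt (KK p) (KK p) :=
  AddMonoidAlgebra.lift (ZMod p) _ G
    { toFun := fun u => TrivSqZeroExt.inl (x p u.toAdd) +
        TrivSqZeroExt.inr (((u.toAdd j : ℤ) : KK p) * x p u.toAdd)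
      map_one' := by simp [x_zero]
      map_mul' := by
        intro u v
        ext
        · simp [x_add]
        · simp [x_add]; ring }

lemma psiL_single (j : Fin 3) (u : G) : psiL p j (single u 1) = TrivSqZeroExt.inl (x p u) +
    TrivSqZeroExt.inr (((u j : ℤ) : KK p) * x p u) := by
  rw [psiL, lift_single, one_smul]; rfl

lemma psiL_fst (j : Fin 3) (f : LL p) : (psiL p j f).fst = io p f := by
  refine LL_induction p Set.univ (P := fun f => (psiL p j f).fst = io p f) (by simp)
    (fun a b ha hb => by rw [map_add, TrivSqZeroExt.fst_add, ha, hb, map_add]) ?_ f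
    (fun _ _ => trivial)
  intro u _
  rw [psiL_single]; simp [x]

noncomputable def psiK (j : Fin 3) : KK p →+* TrivSqZeroExt (KK p) (KK p) :=
  IsLocalization.lift (M := nonZeroDivisors (LL p)) (g := (psiL p j).toRingHom) (by
    intro y
    rw [TrivSqZeroExt.isUnit_iff_isUnit_fst]
    change IsUnit (psiL p j y).fst
    rw [psiL_fst, isUnit_iff_ne_zero, Ne, map_eq_zero_iff _ (io_inj p)]
    exact nonZeroDivisors.ne_zero y.2)

lemma psiK_io (j : Fin 3) (f : LL p) : psiK p j (io p f) = psiL p j f :=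
  IsLocalization.lift_eq _ _

lemma psiK_fst (j : Fin 3) (y : KK p) : (psiK p j y).fst = y := by
  have : ((TrivSqZeroExt.fstHom (ZMod p) (KK p) (KK p)).toRingHom.comp (psiK p j)) =
      RingHom.id _ := by
    apply IsLocalization.ringHom_ext (nonZeroDivisors (LL p))
    refine RingHom.ext (fun f => ?_)
    change (psiK p j (io p f)).fst = io p f
    rw [psiK_io, psiL_fst]
  exact congrArg (fun φ : KK p →+* KK p => φ y) this

noncomputable def theta (j : Fin 3) : Derivation (ZMod p) (KK p) (KK p) :=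
  Derivation.mk'
    (AddMonoidHom.toZModLinearMap p
      { toFun := fun y => (psiK p j y).snd
        map_zero' := by simp
        map_add' := by intro a b; simp })
    (by
      intro a b
      change (psiK p j (a * b)).snd = a • (psiK p j b).snd + b • (psiK p j a).snd
      rw [map_mul, TrivSqZeroExt.snd_mul, psiK_fst, psiK_fst]
      simp [mul_comm])

lemma theta_x (j : Fin 3) (u : G) : theta p j (x p u) = ((u j : ℤ) : KK p) * x p u := by
  change (psiK p j (x p u)).snd = _
  conv_lhs => rw [x, psiK_io, psiL_single]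
  simp

lemma eta0_ne_zero : eta0 p ≠ 0 := by
  let θ : Om p →ₗ[KK p] (Fin 3 → KK p) := LinearMap.pi (fun j => (theta p j).liftKaehlerDifferential)
  let f : (Om p) [⋀^Fin 3]→ₗ[KK p] (KK p) :=
    (Matrix.detRowAlternating (n := Fin 3) (R := KK p)).compLinearMap θ
  intro h
  have h1 := exteriorPower.alternatingMapLinearEquiv_apply_ιMulti f
    (fun i => dlog p (Pi.single i 1))
  rw [← eta0, h, map_zero] at h1
  have h2 : (fun i => θ (dlog p (Pi.single i 1))) = (1 : Matrix (Fin 3) (Fin 3) (KK p)) := by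
    ext i j
    change (theta p j).liftKaehlerDifferential ((x p _)⁻¹ • dd p (x p _)) = _
    rw [map_smul, Derivation.liftKaehlerDifferential_comp_D, theta_x, smul_eq_mul]
    have := x_ne_zero p (Pi.single i 1)
    rw [Matrix.one_apply, Pi.single_apply]
    by_cases hij : i = j
    · subst hij; simp; field_simp
    · simp [hij, Ne.symm hij]
  have h3 : f (fun i => dlog p (Pi.single i 1)) = 1 := by
    change Matrix.det (fun i => θ (dlog p (Pi.single i 1))) = 1
    rw [h2, Matrix.det_one]
  rw [h3] at h1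
  exact zero_ne_one h1

end Pool.Agent.H781Z.FSig
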