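import Pool.Agent.H781Z.FSig.Bound

set_option linter.unusedSectionVars false

namespace Pool.Agent.H781Z.FSig

open Finset

/-- the lattice points of the dilated polytope -/
noncomputable def boxSet (q : ℕ) : Finset G :=
  (Fintype.piFinset fun _ => Finset.Ico (0 : ℤ) q).filter
    (fun u => 2 * u 0 ≤ u 1 + u 2 ∧ u 1 + u 2 - 2 * u 0 < q)

lemma mem_boxSet {q : ℕ} {u : G} : u ∈ boxSet q ↔ InBox q u := by
  simp only [boxSet, InBox, Finset.mem_filter, Fintype.mem_piFinset, Finset.mem_Ico, mem_SA,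
    Fin.forall_fin_succ]
  simp
  omega

lemma card_filter_cube (q : ℕ) (P : ℤ → ℤ → ℤ → Prop) [∀ a b c, Decidable (P a b c)] :
    ((Fintype.piFinset fun _ : Fin 3 => Finset.Ico (0 : ℤ) q).filter
      (fun u => P (u 0) (u 1) (u 2))).card =
    ∑ c ∈ range q, ∑ d ∈ range q, ((range q).filter (fun b : ℕ => P b c d)).card := by
  have : ((Fintype.piFinset fun _ : Fin 3 => Finset.Ico (0 : ℤ) q).filter
      (fun u => P (u 0) (u 1) (u 2))).card =
      ((range q ×ˢ range q ×ˢ range q).filter (fun t : ℕ × ℕ × ℕ => P t.2.2 t.1 t.2.1)).card := by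
    refine Finset.card_nbij' (fun u => ((u 1).toNat, (u 2).toNat, (u 0).toNat))
      (fun t => ![(t.2.2 : ℤ), t.1, t.2.1]) ?_ ?_ ?_ ?_
    · intro u hu
      simp only [coe_filter, Fintype.mem_piFinset, mem_Ico, Set.mem_ofPred_eq] at hu
      obtain ⟨h, hP⟩ := hu
      have h0 := h 0
      have h1 := h 1
      have h2 := h 2
      simp only [coe_filter, mem_product, mem_range, Set.mem_ofPred_eq,
        Int.toNat_of_nonneg h0.1, Int.toNat_of_nonneg h1.1, Int.toNat_of_nonneg h2.1]
      exact ⟨by omega, hP⟩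
    · intro t ht
      simp only [coe_filter, mem_product, mem_range, Set.mem_ofPred_eq] at ht
      simp only [coe_filter, Fintype.mem_piFinset, mem_Ico, Set.mem_ofPred_eq]
      refine ⟨fun i => ?_, by simpa using ht.2⟩
      fin_cases i <;> simp <;> omega
    · intro u hu
      simp only [coe_filter, Fintype.mem_piFinset, mem_Ico, Set.mem_ofPred_eq] at hu
      ext i
      have := (hu.1 i).1
      fin_cases i <;> simpa
    · intro t _
      simp
  rw [this, card_filter, sum_product]
  refine sum_congr rfl (fun c _ => ?_)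
  rw [sum_product]
  refine sum_congr rfl (fun d _ => ?_)
  rw [card_filter]

lemma shift_sum (q : ℕ) (g : ℕ → ℤ) (c : ℕ) :
    ∑ d ∈ range q, g (c + 1 + d) = ∑ d ∈ range q, g (c + d) - g c + g (c + q) := by
  have h1 := sum_range_succ (fun d => g (c + d)) q
  have h2 := sum_range_succ' (fun d => g (c + d)) q
  simp only [add_zero] at h2
  have h3 : ∑ d ∈ range q, g (c + 1 + d) = ∑ d ∈ range q, g (c + (d + 1)) :=
    sum_congr rfl (fun d _ => by congr 1; ring)
  linarith

lemma sum_id (q : ℕ) : 2 * ∑ d ∈ range q, (d : ℤ) = q * (q - 1) := by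
  induction q with
  | zero => simp
  | succ n ih => rw [sum_range_succ]; push_cast; linarith

lemma sum_sq (q : ℕ) : 6 * ∑ d ∈ range q, (d : ℤ) ^ 2 = (q - 1) * q * (2 * q - 1) := by
  induction q with
  | zero => simp
  | succ n ih => rw [sum_range_succ]; push_cast; linarith

lemma inner_min (q c : ℕ) (hc : c ≤ q) :
    2 * ∑ d ∈ range q, min ((c + d : ℕ) : ℤ) q = q ^ 2 - q + (2 * q + 1) * c - c ^ 2 := by
  induction c with
  | zero =>
    have : ∑ d ∈ range q, min ((0 + d : ℕ) : ℤ) q = ∑ d ∈ range q, (d : ℤ) :=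
      sum_congr rfl (fun d hd => by rw [mem_range] at hd; omega)
    rw [this, sum_id]; push_cast; ring
  | succ n ih =>
    rw [shift_sum q (fun w => min (w : ℤ) q) n, min_eq_left (by omega), min_eq_right (by omega)]
    have := ih (by omega)
    push_cast at this ⊢
    linarith

lemma inner_low (q c : ℕ) (hc : c ≤ q) :
    2 * ∑ d ∈ range q, (if c + d < q then ((c + d : ℕ) : ℤ) + 2 else 0) =
      q * (q + 3) - c * (c + 3) := by
  induction c with
  | zero =>
    have : ∑ d ∈ range q, (if 0 + d < q then ((0 + d : ℕ) : ℤ) + 2 else 0) =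
        ∑ d ∈ range q, ((d : ℤ) + 2) :=
      sum_congr rfl (fun d hd => by rw [mem_range] at hd; rw [if_pos (by omega)]; simp)
    rw [this, sum_add_distrib, mul_add, sum_id]; simp; ring
  | succ n ih =>
    rw [shift_sum q (fun w => if w < q then (w : ℤ) + 2 else 0) n, if_pos (by omega),
      if_neg (by omega)]
    have := ih (by omega)
    push_cast at this ⊢
    linarith

lemma card_low_le (q : ℕ) : 6 * (2 * ((lowSet q).card : ℤ)) ≤ 2 * q ^ 3 + 6 * q ^ 2 + 4 * q := by
  have h1 := card_filter_cube q (fun b c d => 2 * b ≤ c + d ∧ c + d < q)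
  have h2 : ∀ c ∈ range q, ∀ d ∈ range q,
      2 * (((range q).filter (fun b : ℕ => 2 * (b : ℤ) ≤ c + d ∧ (c : ℤ) + d < q)).card : ℤ) ≤
        (if c + d < q then ((c + d : ℕ) : ℤ) + 2 else 0) := by
    intro c _ d _
    split_ifs with h
    · have : (range q).filter (fun b : ℕ => 2 * (b : ℤ) ≤ c + d ∧ (c : ℤ) + d < q) =
          range ((c + d) / 2 + 1) := by
        ext b; simp only [mem_filter, mem_range]; omega
      rw [this, card_range]; omega
    · have : (range q).filter (fun b : ℕ => 2 * (b : ℤ) ≤ c + d ∧ (c : ℤ) + d < q) = ∅ := by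
        ext b; simp only [mem_filter, mem_range, notMem_empty, iff_false]; omega
      rw [this]; simp
  have h3 : 2 * (2 * ((lowSet q).card : ℤ)) ≤ ∑ c ∈ range q, ((q : ℤ) * (q + 3) - c * (c + 3)) := by
    rw [lowSet, h1]
    push_cast
    rw [mul_sum, mul_sum]
    refine sum_le_sum (fun c hc => ?_)
    rw [← inner_low q c (mem_range.1 hc).le, mul_sum (range q) _ 2]
    refine mul_le_mul_of_nonneg_left (sum_le_sum (fun d hd => ?_)) (by norm_num)
    exact h2 c hc d hd
  have h4 : ∑ c ∈ range q, ((q : ℤ) * (q + 3) - c * (c + 3)) =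
      q * (q * (q + 3)) - ∑ c ∈ range q, (c : ℤ) ^ 2 - 3 * ∑ c ∈ range q, (c : ℤ) := by
    rw [sum_sub_distrib, sum_const, card_range, nsmul_eq_mul, mul_sum, sub_sub, ← sum_add_distrib]
    congr 1
    exact sum_congr rfl (fun c _ => by ring)
  have h5 := sum_id q
  have h6 := sum_sq q
  nlinarith

lemma card_box (q : ℕ) : 5 * (q : ℤ) ^ 3 - 11 * q ^ 2 ≤ 12 * ((boxSet q).card : ℤ) ∧
    12 * ((boxSet q).card : ℤ) ≤ 5 * (q : ℤ) ^ 3 + 12 * q ^ 2 := by
  have h1 := card_filter_cube q (fun b c d => 2 * b ≤ c + d ∧ c + d - 2 * b < q)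
  have h2 : ∀ c ∈ range q, ∀ d ∈ range q,
      min ((c + d : ℕ) : ℤ) q - 1 ≤ 2 * (((range q).filter
        (fun b : ℕ => 2 * (b : ℤ) ≤ c + d ∧ (c : ℤ) + d - 2 * b < q)).card : ℤ) ∧
      2 * (((range q).filter
        (fun b : ℕ => 2 * (b : ℤ) ≤ c + d ∧ (c : ℤ) + d - 2 * b < q)).card : ℤ) ≤
        min ((c + d : ℕ) : ℤ) q + 2 := by
    intro c hc d hd
    rw [mem_range] at hc hd
    by_cases h : c + d < q
    · have : (range q).filter (fun b : ℕ => 2 * (b : ℤ) ≤ c + d ∧ (c : ℤ) + d - 2 * b < q) =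
          range ((c + d) / 2 + 1) := by
        ext b; simp only [mem_filter, mem_range]; omega
      rw [this, card_range]; omega
    · have : (range q).filter (fun b : ℕ => 2 * (b : ℤ) ≤ c + d ∧ (c : ℤ) + d - 2 * b < q) =
          Ico ((c + d - q) / 2 + 1) ((c + d) / 2 + 1) := by
        ext b; simp only [mem_filter, mem_range, mem_Ico]; omega
      rw [this, Nat.card_Ico]; omega
  have h3 : 2 * ∑ c ∈ range q, ∑ d ∈ range q, min ((c + d : ℕ) : ℤ) q =
      q * (q ^ 2 - q) + (2 * q + 1) * ∑ c ∈ range q, (c : ℤ) - ∑ c ∈ range q, (c : ℤ) ^ 2 := by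
    rw [mul_sum, sum_congr rfl (fun c hc => inner_min q c (mem_range.1 hc).le), sum_sub_distrib,
      sum_add_distrib, sum_const, card_range, nsmul_eq_mul, ← mul_sum]
  have h4 : ∑ c ∈ range q, ∑ d ∈ range q, (min ((c + d : ℕ) : ℤ) q - 1) ≤
      2 * ((boxSet q).card : ℤ) := by
    rw [boxSet, h1]
    push_cast
    rw [mul_sum]
    refine sum_le_sum (fun c hc => ?_)
    rw [mul_sum]
    refine sum_le_sum (fun d hd => ?_)
    have := (h2 c hc d hd).1
    push_cast at this
    exact this
  have h5 : 2 * ((boxSet q).card : ℤ) ≤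
      ∑ c ∈ range q, ∑ d ∈ range q, (min ((c + d : ℕ) : ℤ) q + 2) := by
    rw [boxSet, h1]
    push_cast
    rw [mul_sum]
    refine sum_le_sum (fun c hc => ?_)
    rw [mul_sum]
    refine sum_le_sum (fun d hd => ?_)
    have := (h2 c hc d hd).2
    push_cast at this
    exact this
  simp only [sum_sub_distrib, sum_add_distrib, sum_const, card_range, nsmul_eq_mul] at h4 h5
  have h6 := sum_id q
  have h7 := sum_sq q
  have h8 : (0 : ℤ) ≤ q := by positivity
  have h9 : (q : ℤ) ≤ q ^ 2 := by nlinarith [Int.le_self_sq (q : ℤ)]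
  have h10 : 12 * ∑ c ∈ range q, ∑ d ∈ range q, min ((c + d : ℕ) : ℤ) q =
      10 * q ^ 3 - 6 * q ^ 2 - 4 * q := by
    linear_combination 6 * h3 + 3 * (2 * q + 1) * h6 - h7
  constructor <;> nlinarith

variable (p : ℕ) [Fact p.Prime] (e : ℕ)

lemma le_freeRank : ((boxSet (p ^ e)).card : ℕ∞) ≤ freeRank (RR p) (Frob p e (RR p)) := by
  classical
  refine le_sSup ⟨_, rfl, ?_⟩
  let ε := (boxSet (p ^ e)).equivFin
  have hb : ∀ j, InBox (p ^ e) (ε.symm j : G) := fun j => mem_boxSet.1 (ε.symm j).2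
  refine ⟨Fintype.linearCombination (RR p) (fun j => toFrob p e (xr p _ (hb j).1)),
    LinearMap.pi (fun j => phiLin p e (x p (-(ε.symm j : G)))
      (fun y hy => Phi_box p e (hb j) hy)), ?_⟩
  refine LinearMap.pi_ext' (fun i => LinearMap.ext_ring ?_)
  ext j
  simp only [LinearMap.comp_apply, LinearMap.coe_single, Fintype.linearCombination_apply_single,
    one_smul, LinearMap.pi_apply, LinearMap.id_apply, phiLin_apply]
  change Phi p e (x p _ * x p _) = _
  rw [← x_add]
  by_cases hij : j = i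
  · subst hij
    have := Phi_x_nsmul p e 0
    rw [smul_zero] at this
    rw [neg_add_cancel, this, x_zero]; simp
  · rw [Pi.single_eq_of_ne hij, Phi_x_of_not]
    · rfl
    rintro ⟨v, hv⟩
    apply hij
    apply ε.symm.injective
    apply Subtype.ext
    have hq : (0 : ℤ) < ((p ^ e : ℕ) : ℤ) := by exact_mod_cast Nat.pos_of_ne_zero (q_ne_zero p e)
    obtain ⟨a0, a1, a2, a3, -⟩ := hb i
    obtain ⟨b0, b1, b2, b3, -⟩ := hb j
    rw [mem_SA] at a0 b0
    have key : ∀ (a b t : ℤ), 0 ≤ a → 0 ≤ b → a < ((p ^ e : ℕ) : ℤ) → b < ((p ^ e : ℕ) : ℤ) →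
        ((p ^ e : ℕ) : ℤ) * t = -b + a → b = a := by
      intro a b t ha hb ha' hb' h
      have h1 : 0 ≤ t := nonneg_of_mul hq (b := a) (by omega) ha hb'
      have h2 : 0 ≤ -t := nonneg_of_mul hq (b := b) (by linarith) hb ha'
      have : t = 0 := by omega
      subst this; omega
    have h0 := congrFun hv 0
    have h1 := congrFun hv 1
    have h2 := congrFun hv 2
    simp only [nsmul_app, Pi.add_apply, Pi.neg_apply] at h0 h1 h2
    ext k
    fin_cases k
    · exact key _ _ _ a0.1 b0.1 a1 b1 h0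
    · exact key _ _ _ a0.2.1 b0.2.1 a2 b2 h1
    · exact key _ _ _ a0.2.2.1 b0.2.2.1 a3 b3 h2

lemma hom_mem_max (ψ : Frob p e (RR p) →ₗ[RR p] RR p) {u v : G} (hu : u ∈ SA)
    (hv : v ∉ SA) (huv : u + (p ^ e) • v ∈ SA) (r : RR p) :
    ψ (toFrob p e (xr p u hu * r)) ∈ IsLocalRing.maximalIdeal (RR p) := by
  rw [IsLocalRing.mem_maximalIdeal, mem_nonunits_iff]
  intro hunit
  obtain ⟨t, ht⟩ := hunit.exists_right_inv
  obtain ⟨v2, hv2, hv1⟩ := SA_frac v
  have h1 : xr p v2 hv2 • toFrob p e (xr p _ huv * r) = xr p _ hv1 • toFrob p e (xr p u hu * r) := by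
    rw [frob_smul, frob_smul]
    congr 1
    apply Subtype.ext
    change x p v2 ^ (p ^ e) * (x p _ * r) = x p _ ^ (p ^ e) * (x p u * r)
    rw [x_add, x_add, x_nsmul]; ring
  have h2 := congrArg ψ h1
  rw [map_smul, map_smul, smul_eq_mul, smul_eq_mul] at h2
  have h3 : xr p v2 hv2 * (ψ (toFrob p e (xr p _ huv * r)) * t) = xr p _ hv1 := by
    rw [← mul_assoc, h2, mul_assoc, ht, mul_one]
  have h4 : x p v2 * ((ψ (toFrob p e (xr p _ huv * r)) * t : RR p) : KK p) = x p (v + v2) :=
    congrArg Subtype.val h3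
  rw [x_add, mul_comm (x p v)] at h4
  apply x_not_mem_RS p hv
  rw [← mul_left_cancel₀ (x_ne_zero p v2) h4]
  exact Subtype.property _

lemma freeRank_le : freeRank (RR p) (Frob p e (RR p)) ≤ ((boxSet (p ^ e)).card : ℕ∞) := by
  refine sSup_le ?_
  rintro _ ⟨m, rfl, i, π, h⟩
  let r0 : RR p →+ (Fin m → ZMod p) :=
    { toFun := fun y j => augR p (π (toFrob p e y) j)
      map_zero' := by
        have : toFrob p e (0 : RR p) = 0 := rfl
        ext j
        rw [this, map_zero, Pi.zero_apply, map_zero, Pi.zero_apply]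
      map_add' := by intro a b; ext j; rw [frob_add, map_add, Pi.add_apply, map_add, Pi.add_apply] }
  let r1 : RR p →ₗ[ZMod p] (Fin m → ZMod p) :=
    { r0 with map_smul' := fun c y => ZMod.map_smul r0 c y }
  have hr : ∀ y j, r1 y j = augR p (π (toFrob p e y) j) := fun _ _ => rfl
  let I : Ideal (RR p) :=
    { carrier := {y | ∀ r, r1 (y * r) = 0}
      zero_mem' := by intro r; simp
      add_mem' := by intro a b ha hb r; rw [add_mul, map_add, ha, hb, add_zero]
      smul_mem' := by
        intro s a ha r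
        rw [smul_eq_mul, mul_comm s, mul_assoc]; exact ha _ }
  have hq : (0 : ℤ) < ((p ^ e : ℕ) : ℤ) := by exact_mod_cast Nat.pos_of_ne_zero (q_ne_zero p e)
  have hspan := span_mod p e I (boxSet (p ^ e)) (fun u hu => (mem_boxSet.1 hu).1)
    (fun u hu hnot r => by
      ext j
      rw [hr, Pi.zero_apply, ← mem_max_iff]
      rw [mem_boxSet, InBox] at hnot
      have hu' := mem_SA.1 hu
      have : ∃ v : G, v ∉ SA ∧ u + (p ^ e) • v ∈ SA := by
        by_cases h0 : ((p ^ e : ℕ) : ℤ) ≤ u 0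
        · refine ⟨![-1, 0, 0], by rw [mem_SA]; simp, ?_⟩
          rw [mem_SA]; simp only [Pi.add_apply, nsmul_app]
          simp only [Matrix.cons_val_zero, Matrix.cons_val_one, Matrix.cons_val]
          omega
        by_cases h1 : ((p ^ e : ℕ) : ℤ) ≤ u 1
        · refine ⟨![0, -1, 1], by rw [mem_SA]; simp, ?_⟩
          rw [mem_SA]; simp only [Pi.add_apply, nsmul_app]
          simp only [Matrix.cons_val_zero, Matrix.cons_val_one, Matrix.cons_val]
          omega
        by_cases h2 : ((p ^ e : ℕ) : ℤ) ≤ u 2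
        · refine ⟨![0, 1, -1], by rw [mem_SA]; simp, ?_⟩
          rw [mem_SA]; simp only [Pi.add_apply, nsmul_app]
          simp only [Matrix.cons_val_zero, Matrix.cons_val_one, Matrix.cons_val]
          omega
        have h3 : ((p ^ e : ℕ) : ℤ) ≤ u 1 + u 2 - 2 * u 0 := by
          by_contra h3
          exact hnot ⟨hu, by omega, by omega, by omega, by omega⟩
        refine ⟨![1, 1, 0], by rw [mem_SA]; simp, ?_⟩
        rw [mem_SA]; simp only [Pi.add_apply, nsmul_app]
        simp only [Matrix.cons_val_zero, Matrix.cons_val_one, Matrix.cons_val]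
        omega
      obtain ⟨v, hv, huv⟩ := this
      exact hom_mem_max p e ((LinearMap.proj j).comp π) hu hv huv r)
    (fun u hu h0 h => by
      obtain ⟨-, -, h1, h2, -⟩ := mem_boxSet.1 h
      simp only [nsmul_app] at h1 h2
      rw [mem_SA] at hu
      rw [Ne, eq_zero_iff] at h0
      have : 1 ≤ u 1 ∨ 1 ≤ u 2 := by omega
      rcases this with h3 | h3 <;> nlinarith)
  have hsurj : Function.Surjective (r1 ∘ₗ Fintype.linearCombination (ZMod p)
      (fun i : boxSet (p ^ e) => xr p i (mem_boxSet.1 i.2).1)) := by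
    intro t
    obtain ⟨s, hs⟩ := hspan (i (fun j => ((t j).val : RR p)))
    refine ⟨s, ?_⟩
    have h1 := hs 1
    rw [mul_one, map_sub, sub_eq_zero] at h1
    rw [LinearMap.comp_apply, Fintype.linearCombination_apply, ← h1]
    ext j
    have h2 := LinearMap.congr_fun h (fun j => ((t j).val : RR p))
    rw [LinearMap.comp_apply, LinearMap.id_apply] at h2
    rw [hr]
    change augR p (π (i _) j) = _
    rw [h2, map_natCast, ZMod.natCast_zmod_val]
  have := LinearMap.finrank_le_finrank_of_surjective hsurj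
  simp only [Module.finrank_fintype_fun_eq_card, Fintype.card_fin, Fintype.card_coe] at this
  exact_mod_cast this

lemma freeRank_eq : freeRank (RR p) (Frob p e (RR p)) = ((boxSet (p ^ e)).card : ℕ∞) :=
  le_antisymm (freeRank_le p e) (le_freeRank p e)

end Pool.Agent.H781Z.FSig
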