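import Mathlib

/-!
Definitions: Frobenius pushforward, free rank, F-signature, Weil divisors on the spectrum of a
Noetherian domain, canonical divisors, F-signature of pairs.
-/

namespace Pool.Agent.H781Z.FSig

open Filter
open scoped ENNReal

/-- `F^e_* M`: the additive group `M`, with `r` acting as `r ^ (p ^ e)`. -/
def Frob (_p _e : ℕ) (M : Type) : Type := M

instance (p e : ℕ) (M : Type) [AddCommGroup M] : AddCommGroup (Frob p e M) :=
  inferInstanceAs (AddCommGroup M)

noncomputable instance (p e : ℕ) (R M : Type) [CommRing R] [ExpChar R p] [AddCommGroup M]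
    [Module R M] : Module R (Frob p e M) :=
  Module.compHom M (iterateFrobenius R p e)

/-- The identity map `M → F^e_* M`, `m ↦ F^e_* m`. -/
def toFrob (p e : ℕ) {M : Type} (m : M) : Frob p e M := m

/-- The free rank: the largest `n` such that `R ^ n` is a direct summand of `M`. -/
noncomputable def freeRank (R M : Type) [CommRing R] [AddCommGroup M] [Module R M] : ℕ∞ :=
  sSup {n : ℕ∞ | ∃ m : ℕ, n = m ∧ ∃ (i : (Fin m → R) →ₗ[R] M) (π : M →ₗ[R] (Fin m → R)),
    π ∘ₗ i = LinearMap.id}

instance (R : Type) [CommRing R] [IsLocalRing R] (p : ℕ) [Fact p.Prime] [CharP R p] :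
    CharP (IsLocalRing.ResidueField R) p :=
  (CharP.charP_iff_prime_eq_zero (Fact.out : p.Prime)).2 (by
    rw [← map_natCast (IsLocalRing.residue R), CharP.cast_eq_zero, map_zero])

/-- The F-signature `s(R)` of a local ring of characteristic `p` and dimension `d`
(lower limit; the limit is known to exist). -/
noncomputable def fSignature (R : Type) [CommRing R] [IsLocalRing R] (p : ℕ) [Fact p.Prime]
    [CharP R p] (d : ℕ) : ℝ≥0∞ :=
  liminf (fun e : ℕ => (freeRank R (Frob p e R) : ℝ≥0∞) /
    ((Module.finrank (IsLocalRing.ResidueField R) (Frob p e (IsLocalRing.ResidueField R)) : ℝ≥0∞)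
      * (p : ℝ≥0∞) ^ (e * d))) atTop

/-- Prime divisors of `Spec R`: the prime ideals of height one. -/
def PrimeDiv (R : Type) [CommRing R] : Type := {P : PrimeSpectrum R // P.asIdeal.height = 1}

section

variable {R : Type} [CommRing R] [IsDomain R] [IsNoetherianRing R]
variable (K : Type) [Field K] [Algebra R K] [IsFractionRing R K]

/-- The local ring `R_P`, as a subring of the fraction field `K`. -/
noncomputable def locAt (P : PrimeDiv R) : Subalgebra R K :=
  Localization.subalgebra.ofField K P.1.asIdeal.primeCompl P.1.asIdeal.primeCompl_le_nonZeroDivisors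

instance (P : PrimeDiv R) : IsLocalization.AtPrime (locAt K P) P.1.asIdeal :=
  Localization.subalgebra.isLocalization_ofField K _ _

instance (P : PrimeDiv R) : IsFractionRing (locAt K P) K :=
  Localization.subalgebra.isFractionRing_ofField K _ _

instance (P : PrimeDiv R) : IsNoetherianRing (locAt K P) :=
  IsLocalization.isNoetherianRing P.1.asIdeal.primeCompl _ inferInstance

instance (P : PrimeDiv R) : Ring.KrullDimLE 1 (locAt K P) := by
  rw [Ring.krullDimLE_iff, IsLocalization.AtPrime.ringKrullDim_eq_height P.1.asIdeal, P.2]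
  rfl

/-- The order of vanishing of a rational function along a prime divisor. -/
noncomputable def ord (P : PrimeDiv R) (y : K) : ℤ :=
  WithZero.log (Ring.ordFrac (locAt K P) y)

/-- `R(D)`: the submodule of `K` of rational functions `y` with `div y + D ≥ 0`
(together with `0`). -/
noncomputable def sections (D : PrimeDiv R → ℤ) : Submodule R K :=
  Submodule.span R {y : K | y ≠ 0 ∧ ∀ P, 0 ≤ ord K P y + D P}

/-- Effective `ℚ`-divisors on `Spec R`. -/
def EffQDiv (R : Type) [CommRing R] : Type := {Δ : PrimeDiv R →₀ ℚ // ∀ P, 0 ≤ Δ P}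

/-- The divisor `⌈(p ^ e - 1) Δ⌉`. -/
noncomputable def roundUp (p e : ℕ) (Δ : EffQDiv R) : PrimeDiv R → ℤ :=
  fun P => ⌈((p : ℚ) ^ e - 1) * Δ.1 P⌉

/-- For an `R`-module `M` of rational functions (`j` is its inclusion in `K`): the elements `r` of
`R` such that `φ (F^e_* r)` lies in the maximal ideal for every `R`-linear map
`φ : F^e_* M → R`. -/
noncomputable def homIdeal [IsLocalRing R] (p : ℕ) [Fact p.Prime] [CharP R p] (e : ℕ)
    (M : Type) [AddCommGroup M] [Module R M] (j : M → K) : Ideal R :=
  Ideal.span {r : R | ∀ (φ : Frob p e M →ₗ[R] R) (z : M), j z = algebraMap R K r →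
    φ (toFrob p e z) ∈ IsLocalRing.maximalIdeal R}

/-- The ideal `I_e^Δ`: the elements `r` of `R` such that `φ (F^e_* r)` lies in the maximal ideal
for every `R`-linear map `φ : F^e_* R(⌈(p ^ e - 1) Δ⌉) → R`. -/
noncomputable def splittingIdeal [IsLocalRing R] (p : ℕ) [Fact p.Prime] [CharP R p] (e : ℕ)
    (Δ : EffQDiv R) : Ideal R :=
  homIdeal K p e (sections K (roundUp p e Δ)) Subtype.val

/-- The F-signature `s(R, Δ)` of a pair (lower limit; the limit is known to exist). -/
noncomputable def fSignaturePair [IsLocalRing R] (p : ℕ) [Fact p.Prime] [CharP R p] (d : ℕ)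
    (Δ : EffQDiv R) : ℝ≥0∞ :=
  liminf (fun e : ℕ => (Module.length R (R ⧸ splittingIdeal K p e Δ) : ℝ≥0∞) /
    (p : ℝ≥0∞) ^ (e * d)) atTop

/-- Given `wedge`, sending `(v_1, ..., v_d)` to the form `dv_1 ∧ ... ∧ dv_d` in the `K`-vector space
`N` of rational `d`-forms: the forms that are regular at `P`, that is, the `R_P`-span of the forms
`dv_1 ∧ ... ∧ dv_d` with `v_i ∈ R_P`. -/
noncomputable def regularForms {d : ℕ} {N : Type} [AddCommGroup N] [Module K N]
    (wedge : (Fin d → K) → N) (P : PrimeDiv R) : AddSubgroup N :=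
  AddSubgroup.closure {ω : N | ∃ (c : K) (v : Fin d → K), c ∈ locAt K P ∧ (∀ i, v i ∈ locAt K P) ∧
    ω = c • wedge v}

/-- `D` is the divisor of a nonzero rational `d`-form `η`: at every prime divisor `P` the form
`y η` is regular exactly when `ord_P y + D(P) ≥ 0`. -/
def IsDivisorOfForm {d : ℕ} {N : Type} [AddCommGroup N] [Module K N]
    (wedge : (Fin d → K) → N) (D : PrimeDiv R →₀ ℤ) : Prop :=
  ∃ η : N, η ≠ 0 ∧
    ∀ (P : PrimeDiv R) (y : K), y ≠ 0 → (y • η ∈ regularForms K wedge P ↔ 0 ≤ ord K P y + D P)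

/-- The `d`-th exterior power of a vector space. -/
def ExtPow (d : ℕ) (M : Type) [AddCommGroup M] [Module K M] : Type := ⋀[K]^d M

noncomputable instance (d : ℕ) (M : Type) [AddCommGroup M] [Module K M] :
    AddCommGroup (ExtPow K d M) := Submodule.addCommGroup (⋀[K]^d M)

noncomputable instance (d : ℕ) (M : Type) [AddCommGroup M] [Module K M] :
    Module K (ExtPow K d M) := Submodule.module (⋀[K]^d M)

/-- The wedge product `(m_1, ..., m_d) ↦ m_1 ∧ ... ∧ m_d`. -/
noncomputable def wedgeProd (d : ℕ) (M : Type) [AddCommGroup M] [Module K M] :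
    AlternatingMap K M (ExtPow K d M) (Fin d) := exteriorPower.ιMulti K d

variable (k : Type) [Field k] [Algebra k K]

/-- The differential `dv` of a rational function, in the Kaehler differentials of `K` over `k`. -/
noncomputable def differential (v : K) : KaehlerDifferential k K := KaehlerDifferential.D k K v

/-- `D` is a canonical divisor: the divisor of a nonzero rational `d`-form over `k`. -/
def IsCanonicalDivisor (d : ℕ) (D : PrimeDiv R →₀ ℤ) : Prop :=
  IsDivisorOfForm K (fun v : Fin d → K => wedgeProd K d (KaehlerDifferential k K)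
    fun i => differential K k (v i)) D

/-- On the spectrum of a local ring: `n (D + Δ)` is Cartier (principal) for some `n ≥ 1` prime
to `p`. -/
def IsQCartierPrimeTo (p : ℕ) (D : PrimeDiv R →₀ ℤ) (Δ : EffQDiv R) : Prop :=
  ∃ n : ℕ, 1 ≤ n ∧ ¬ p ∣ n ∧ ∃ g : K, g ≠ 0 ∧
    ∀ P : PrimeDiv R, (n : ℚ) * ((D P : ℚ) + Δ.1 P) = (ord K P g : ℚ)

end

end Pool.Agent.H781Z.FSig
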