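import Pool.Agent.H781Z.FSig.Local

set_option linter.unusedSectionVars false

namespace Pool.Agent.H781Z.FSig

open AddMonoidAlgebra

variable (p : ℕ) [Fact p.Prime]

/-! charts at prime divisors -/

def gT : G := ![0, -1, 1]

open Classical in
noncomputable def chartAt (P : PrimeDiv (RR p)) : G ≃+ G :=
  if x p gT ∈ locAt (KK p) P then F1 else F2

lemma RS_le_locAt (P : PrimeDiv (RR p)) {y : KK p} (hy : y ∈ RS p) : y ∈ locAt (KK p) P :=
  (locAt (KK p) P).algebraMap_mem (⟨y, hy⟩ : RR p)

lemma frac_locAt (P : PrimeDiv (RR p)) {v : KK p} (hv : v ∈ locAt (KK p) P) :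
    ∃ a ∈ kS p SA, ∃ s ∈ kS p SA, s ≠ 0 ∧ s⁻¹ ∈ locAt (KK p) P ∧ v = a / s := by
  obtain ⟨s, hs, a, h⟩ := (mem_locAt_iff P v).1 hv
  have hs0 : (s : KK p) ≠ 0 := by
    intro h0
    have : s = 0 := Subtype.ext h0
    exact hs (this ▸ P.1.asIdeal.zero_mem)
  have hsi : (s : KK p)⁻¹ ∈ locAt (KK p) P :=
    (mem_locAt_iff P _).2 ⟨s, hs, 1, by rw [map_one]; exact mul_inv_cancel₀ hs0⟩
  obtain ⟨a1, t1, ht1, h1⟩ := (mem_RS p).1 a.2
  obtain ⟨s1, t2, ht2, h2⟩ := (mem_RS p).1 s.2
  have ht10 := ne_zero_of_aug p ht1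
  have ht20 := ne_zero_of_aug p ht2
  have hs1 : (s1 : KK p) = s * t2 := by rw [h2]; field_simp
  refine ⟨a1 * t2, mul_mem a1.2 t2.2, t1 * s1, mul_mem t1.2 s1.2, ?_, ?_, ?_⟩
  · rw [hs1]; exact mul_ne_zero ht10 (mul_ne_zero hs0 ht20)
  · rw [hs1, mul_inv, mul_inv]
    exact mul_mem (RS_le_locAt p P (inv_mem_RS p ht1))
      (mul_mem hsi (RS_le_locAt p P (inv_mem_RS p ht2)))
  · change (s : KK p) * v = a at h
    rw [hs1]
    have : v = (a : KK p) / s := by rw [← h]; field_simp
    rw [this, h1]; field_simp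

lemma adapted_chartAt (P : PrimeDiv (RR p)) :
    Adapted p (chartAt p P) (locAt (KK p) P).toSubring := by
  have key : ∀ F : G ≃+ G, SA ≤ chartMon F → ∀ v ∈ (locAt (KK p) P).toSubring,
      ∃ a ∈ kS p (chartMon F), ∃ s ∈ kS p (chartMon F), s ≠ 0 ∧
        s⁻¹ ∈ (locAt (KK p) P).toSubring ∧ v = a / s := by
    intro F hF v hv
    obtain ⟨a, ha, s, hs, h0, h1, h2⟩ := frac_locAt p P hv
    exact ⟨a, kS_mono p hF ha, s, kS_mono p hF hs, h0, h1, h2⟩
  unfold chartAt
  split_ifs with h
  · refine ⟨fun i => ?_, key F1 inf_le_left⟩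
    fin_cases i
    · exact RS_le_locAt p P (x_mem_RS p (by rw [mem_SA]; simp [F1]))
    · have h2 : w p F1 1 = x p gT := by
        unfold w; congr 1
      change w p F1 1 ∈ locAt (KK p) P
      rw [h2]; exact h
    · exact RS_le_locAt p P (x_mem_RS p (by rw [mem_SA]; simp [F1]))
  · refine ⟨fun i => ?_, key F2 inf_le_right⟩
    fin_cases i
    · exact RS_le_locAt p P (x_mem_RS p (by rw [mem_SA]; simp [F2]))
    · have := (mem_locAt_or_inv P (x p gT)).resolve_left h
      rw [← x_neg] at this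
      have h2 : w p F2 1 = x p (-gT) := by
        unfold w; congr 1; ext j; fin_cases j <;> simp [F2, gT]
      change w p F2 1 ∈ locAt (KK p) P
      rw [h2]; exact this
    · exact RS_le_locAt p P (x_mem_RS p (by rw [mem_SA]; simp [F2]))

lemma piF2 : piF p F2 = piF p F1 * x p gT := by
  rw [piF, piF, ← x_add]; congr 1; ext j; fin_cases j <;> simp [F1, F2, gT]

lemma pi_ratio (P Q : PrimeDiv (RR p)) :
    piF p (chartAt p Q) / piF p (chartAt p P) ∈ locAt (KK p) P := by
  have h1 := piF_ne_zero p F1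
  have h2 := x_ne_zero p gT
  unfold chartAt
  split_ifs with hQ hP hP
  · rw [div_self h1]; exact one_mem _
  · have := (mem_locAt_or_inv P (x p gT)).resolve_left hP
    rw [piF2]; convert this using 1; field_simp
  · rw [piF2]; convert hP using 1; field_simp
  · rw [div_self (piF_ne_zero p F2)]; exact one_mem _

lemma topForm_chartAt (P : PrimeDiv (RR p)) : topForm p (chartAt p P) = piF p (chartAt p P) • eta0 p
    ∨ topForm p (chartAt p P) = (-piF p (chartAt p P)) • eta0 p := by
  rw [topForm_eq]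
  unfold chartAt
  split_ifs with h
  · have : (Matrix.of fun i j => F1 (Pi.single i 1) j).det = 1 := by
      rw [Matrix.det_fin_three]; simp [F1]
    left; rw [this]; simp
  · have : (Matrix.of fun i j => F2 (Pi.single i 1) j).det = -1 := by
      rw [Matrix.det_fin_three]; simp [F2]
    right; rw [this]; simp

noncomputable def wd (v : Fin 3 → KK p) : ExtPow (KK p) 3 (Om p) :=
  wedgeProd (KK p) 3 (Om p) fun i => differential (KK p) (ZMod p) (v i)

noncomputable def eta : ExtPow (KK p) 3 (Om p) := eta0 p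

noncomputable def top (F : G ≃+ G) : ExtPow (KK p) 3 (Om p) := topForm p F

lemma eta_ne_zero : eta p ≠ 0 := eta0_ne_zero p

lemma top_chartAt (P : PrimeDiv (RR p)) : top p (chartAt p P) = piF p (chartAt p P) • eta p
    ∨ top p (chartAt p P) = (-piF p (chartAt p P)) • eta p := topForm_chartAt p P

lemma wd_chart {F : G ≃+ G} {V : Subring (KK p)} (hV : Adapted p F V) (v : Fin 3 → KK p)
    (hv : ∀ i, v i ∈ V) : ∃ c ∈ V, wd p v = c • top p F := wedge_chart p hV v hv

lemma exists_smul_eta (η : ExtPow (KK p) 3 (Om p)) : ∃ c : KK p, η = c • eta p := by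
  obtain ⟨c, hc⟩ := exists_smul_topForm p F1 η
  rw [topForm_eq, smul_smul] at hc
  exact ⟨_, hc⟩

lemma mem_regularForms (P : PrimeDiv (RR p)) (c : KK p) :
    c • eta p ∈ regularForms (KK p) (wd p) P ↔ c / piF p (chartAt p P) ∈ locAt (KK p) P := by
  have hpi := piF_ne_zero p (chartAt p P)
  have hV := adapted_chartAt p P
  constructor
  · intro h
    have key : ∀ η ∈ regularForms (KK p) (wd p) P,
        ∃ d ∈ locAt (KK p) P, η = (d * piF p (chartAt p P)) • eta p := by
      intro η hη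
      induction hη using AddSubgroup.closure_induction with
      | mem y hy =>
        obtain ⟨c, v, hc, hv, rfl⟩ := hy
        obtain ⟨d, hd, h⟩ := wd_chart p hV v hv
        rcases top_chartAt p P with h2 | h2
        · exact ⟨c * d, mul_mem hc hd, by rw [h, h2, smul_smul, smul_smul]⟩
        · refine ⟨c * -d, mul_mem hc (neg_mem hd), ?_⟩
          rw [h, h2, smul_smul, smul_smul]
          congr 1; ring
      | zero => exact ⟨0, zero_mem _, by simp⟩
      | add a b _ _ ha hb =>
        obtain ⟨c, hc, rfl⟩ := ha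
        obtain ⟨d, hd, rfl⟩ := hb
        exact ⟨c + d, add_mem hc hd, by rw [add_mul, add_smul]⟩
      | neg b _ hb =>
        obtain ⟨d, hd, rfl⟩ := hb
        exact ⟨-d, neg_mem hd, by rw [neg_mul, neg_smul]⟩
    obtain ⟨d, hd, h2⟩ := key _ h
    have := smul_left_injective (KK p) (eta_ne_zero p) h2
    rw [this, mul_div_assoc, div_self hpi, mul_one]
    exact hd
  · intro h
    have h1 : wd p (w p (chartAt p P)) = top p (chartAt p P) := rfl
    refine AddSubgroup.subset_closure ?_
    rcases top_chartAt p P with h2 | h2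
    · refine ⟨_, w p (chartAt p P), h, hV.w_mem, ?_⟩
      rw [h1, h2, smul_smul, div_mul_cancel₀ _ hpi]
    · refine ⟨_, w p (chartAt p P), neg_mem h, hV.w_mem, ?_⟩
      rw [h1, h2, smul_smul, neg_mul_neg, div_mul_cancel₀ _ hpi]

lemma canonical_eq {D : PrimeDiv (RR p) →₀ ℤ} (hD : IsCanonicalDivisor (KK p) (ZMod p) 3 D) :
    ∃ f : KK p, f ≠ 0 ∧ ∀ P, D P = ord (KK p) P f - ord (KK p) P (piF p (chartAt p P)) := by
  change IsDivisorOfForm (KK p) (wd p) D at hD
  obtain ⟨η, hη, H⟩ := hD
  obtain ⟨f, hc⟩ := exists_smul_eta p η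
  have hf : f ≠ 0 := by rintro rfl; rw [zero_smul] at hc; exact hη hc
  refine ⟨f, hf, fun P => ?_⟩
  have hpi := piF_ne_zero p (chartAt p P)
  have key : ∀ n : ℤ, (0 ≤ n + (ord (KK p) P f - ord (KK p) P (piF p (chartAt p P))) ↔
      0 ≤ n + D P) := by
    intro n
    obtain ⟨y, hy, rfl⟩ := exists_ord_eq (K := KK p) P n
    rw [← H P y hy, hc, smul_smul, mem_regularForms,
      mem_locAt_iff_ord P (div_ne_zero (mul_ne_zero hy hf) hpi), ord_div P (mul_ne_zero hy hf) hpi,
      ord_mul P hy hf, add_sub_assoc]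
  have h1 := key (-D P)
  have h2 := key (-(ord (KK p) P f - ord (KK p) P (piF p (chartAt p P))))
  omega

lemma exists_canonical : ∃ D : PrimeDiv (RR p) →₀ ℤ, IsCanonicalDivisor (KK p) (ZMod p) 3 D := by
  have hN : (![1, 2, 1] : G) ∈ SA := by rw [mem_SA]; simp
  have hM : (![1, 1, 2] : G) ∈ SA := by rw [mem_SA]; simp
  have hfin : (Function.support
      (fun P : PrimeDiv (RR p) => -ord (KK p) P (piF p (chartAt p P)))).Finite := by
    refine ((finite_primeDiv_mem (N := xr p _ hN)
      (fun h => x_ne_zero p ![1, 2, 1] (congrArg Subtype.val h))).union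
      (finite_primeDiv_mem (N := xr p _ hM)
      (fun h => x_ne_zero p ![1, 1, 2] (congrArg Subtype.val h)))).subset ?_
    intro P hP
    by_contra hcon
    simp only [Set.mem_union, Set.mem_ofPred_eq, not_or] at hcon
    apply hP
    simp only [neg_eq_zero]
    unfold chartAt
    split_ifs
    · have := ord_eq_zero_of_notMem (K := KK p) P hcon.1
      convert this using 2
      change x p _ = x p _
      congr 1
    · have := ord_eq_zero_of_notMem (K := KK p) P hcon.2
      convert this using 2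
      change x p _ = x p _
      congr 1
  refine ⟨Finsupp.ofSupportFinite _ hfin, ?_⟩
  change IsDivisorOfForm (KK p) (wd p) _
  refine ⟨eta p, eta_ne_zero p, fun P y hy => ?_⟩
  have hpi := piF_ne_zero p (chartAt p P)
  rw [mem_regularForms, mem_locAt_iff_ord P (div_ne_zero hy hpi), ord_div P hy hpi,
    Finsupp.ofSupportFinite_coe, sub_eq_add_neg]

end Pool.Agent.H781Z.FSig
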