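import Mathlib

set_option linter.unusedSectionVars false

namespace Pool.Agent.H781Z.FSig

open AddMonoidAlgebra

abbrev G : Type := Fin 3 → ℤ
abbrev LL (p : ℕ) [Fact p.Prime] : Type := AddMonoidAlgebra (ZMod p) G
def KK (p : ℕ) [Fact p.Prime] : Type := FractionRing (LL p)

variable (p : ℕ) [Fact p.Prime]

noncomputable instance : Field (KK p) := inferInstanceAs (Field (FractionRing (LL p)))
noncomputable instance : Algebra (LL p) (KK p) :=
  inferInstanceAs (Algebra (LL p) (FractionRing (LL p)))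
instance : IsFractionRing (LL p) (KK p) :=
  inferInstanceAs (IsFractionRing (LL p) (FractionRing (LL p)))
noncomputable instance : Algebra (ZMod p) (KK p) :=
  ((algebraMap (LL p) (KK p)).comp (algebraMap (ZMod p) (LL p))).toAlgebra
instance : IsScalarTower (ZMod p) (LL p) (KK p) := IsScalarTower.of_algebraMap_eq (fun _ => rfl)

instance : CharP (LL p) p := charP_of_injective_algebraMap
  (algebraMap (ZMod p) (LL p)).injective p

instance : CharP (KK p) p := charP_of_injective_algebraMap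
  (algebraMap (ZMod p) (KK p)).injective p

noncomputable abbrev io : LL p →+* KK p := algebraMap (LL p) (KK p)

lemma io_inj : Function.Injective (io p) := IsFractionRing.injective _ _

/-- the Laurent monomial -/
noncomputable def x (u : G) : KK p := io p (single u 1)

lemma x_add (u v : G) : x p (u + v) = x p u * x p v := by
  simp only [x]; rw [← map_mul, single_mul_single, mul_one]

lemma x_zero : x p 0 = 1 := by
  simp only [x]; rw [← one_def, map_one]

lemma x_mul_neg (u : G) : x p u * x p (-u) = 1 := by rw [← x_add, add_neg_cancel, x_zero]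

lemma x_ne_zero (u : G) : x p u ≠ 0 := left_ne_zero_of_mul_eq_one (x_mul_neg p u)

lemma x_neg (u : G) : x p (-u) = (x p u)⁻¹ := (eq_inv_of_mul_eq_one_right (x_mul_neg p u))

lemma x_sub (u v : G) : x p (u - v) = x p u / x p v := by
  rw [sub_eq_add_neg, x_add, x_neg, div_eq_mul_inv]

lemma x_nsmul (n : ℕ) (u : G) : x p (n • u) = x p u ^ n := by
  induction n with
  | zero => simp [x_zero]
  | succ n ih => rw [succ_nsmul, x_add, ih, pow_succ]

lemma x_sum {ι : Type} (s : Finset ι) (f : ι → G) : x p (∑ i ∈ s, f i) = ∏ i ∈ s, x p (f i) := by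
  classical
  induction s using Finset.induction_on with
  | empty => simp [x_zero]
  | insert a s ha ih => rw [Finset.sum_insert ha, Finset.prod_insert ha, x_add, ih]

lemma single_eq_nsmul (u : G) (c : ZMod p) : (single u c : LL p) = c.val • single u 1 := by
  rw [smul_single]; simp

/-- additive induction on Laurent polynomials with support in a set -/
lemma LL_induction (S : Set G) {P : LL p → Prop} (h0 : P 0)
    (hadd : ∀ a b, P a → P b → P (a + b)) (hx : ∀ u ∈ S, P (single u 1))
    (f : LL p) (hf : ∀ u ∈ f.coeff.support, u ∈ S) : P f := by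
  rw [← sum_coeff_single f, Finsupp.sum]
  refine Finset.sum_induction _ P hadd h0 ?_
  intro u hu
  rw [single_eq_nsmul]
  generalize (f.coeff u).val = n
  induction n with
  | zero => simpa using h0
  | succ n ih => rw [succ_nsmul]; exact hadd _ _ ih (hx u (hf u hu))

/-- the monoid algebra of a submonoid of the lattice, inside the function field -/
noncomputable def kS (S : AddSubmonoid G) : Subalgebra (ZMod p) (KK p) where
  carrier := {y | ∃ f : LL p, (∀ u ∈ f.coeff.support, u ∈ S) ∧ io p f = y}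
  mul_mem' := by
    classical
    rintro _ _ ⟨f, hf, rfl⟩ ⟨g, hg, rfl⟩
    refine ⟨f * g, ?_, map_mul _ _ _⟩
    intro u hu
    have := support_coeff_mul_subset f g hu
    rw [Finset.mem_add] at this
    obtain ⟨a, ha, b, hb, rfl⟩ := this
    exact S.add_mem (hf a ha) (hg b hb)
  add_mem' := by
    classical
    rintro _ _ ⟨f, hf, rfl⟩ ⟨g, hg, rfl⟩
    refine ⟨f + g, ?_, map_add _ _ _⟩
    intro u hu
    rw [coeff_add] at hu
    have := Finsupp.support_add hu
    rw [Finset.mem_union] at this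
    rcases this with h | h
    · exact hf u h
    · exact hg u h
  algebraMap_mem' := by
    intro c
    refine ⟨single 0 c, ?_, ?_⟩
    · intro u hu
      rw [coeff_single] at hu
      have := Finsupp.support_single_subset hu
      rw [Finset.mem_singleton] at this
      rw [this]; exact S.zero_mem
    · rw [IsScalarTower.algebraMap_apply (ZMod p) (LL p) (KK p)]; rfl

lemma mem_kS {S : AddSubmonoid G} {y : KK p} :
    y ∈ kS p S ↔ ∃ f : LL p, (∀ u ∈ f.coeff.support, u ∈ S) ∧ io p f = y := Iff.rfl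

lemma x_mem_kS {S : AddSubmonoid G} {u : G} (hu : u ∈ S) : x p u ∈ kS p S := by
  refine ⟨single u 1, ?_, rfl⟩
  intro v hv
  rw [coeff_single] at hv
  have := Finsupp.support_single_subset hv
  rw [Finset.mem_singleton] at this
  rw [this]; exact hu

lemma kS_induction {S : AddSubmonoid G} {P : KK p → Prop} (h0 : P 0)
    (hadd : ∀ a b, a ∈ kS p S → b ∈ kS p S → P a → P b → P (a + b)) (hx : ∀ u ∈ S, P (x p u))
    {y : KK p} (hy : y ∈ kS p S) : P y := by
  obtain ⟨f, hf, rfl⟩ := hy
  have := LL_induction p (S : Set G) (P := fun f => io p f ∈ kS p S ∧ P (io p f))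
    (by simpa using h0)
    (fun a b ha hb => by
      rw [map_add]; exact ⟨add_mem ha.1 hb.1, hadd _ _ ha.1 hb.1 ha.2 hb.2⟩)
    (fun u hu => ⟨x_mem_kS p hu, hx u hu⟩) f hf
  exact this.2

lemma kS_mono {S T : AddSubmonoid G} (h : S ≤ T) : kS p S ≤ kS p T := by
  rintro _ ⟨f, hf, rfl⟩
  exact ⟨f, fun u hu => h (hf u hu), rfl⟩

lemma kS_inf {S T : AddSubmonoid G} {y : KK p} (h1 : y ∈ kS p S) (h2 : y ∈ kS p T) :
    y ∈ kS p (S ⊓ T) := by
  obtain ⟨f, hf, rfl⟩ := h1
  obtain ⟨g, hg, hfg⟩ := h2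
  have := io_inj p hfg
  subst this
  exact ⟨g, fun u hu => ⟨hf u hu, hg u hu⟩, rfl⟩

lemma io_mem_top (f : LL p) : io p f ∈ kS p ⊤ := ⟨f, fun _ _ => trivial, rfl⟩

/-- If every lattice point is a difference of points of `S`, `K` is the fraction field. -/
lemma exists_frac {S : AddSubmonoid G} (hS : ∀ u : G, ∃ v ∈ S, u + v ∈ S) (y : KK p) :
    ∃ a ∈ kS p S, ∃ b ∈ kS p S, b ≠ 0 ∧ y = a / b := by
  have key : ∀ f ∈ kS p ⊤, ∃ v ∈ S, f * x p v ∈ kS p S := by
    intro f hf
    refine kS_induction p (S := ⊤) (P := fun f => ∃ v ∈ S, f * x p v ∈ kS p S) ?_ ?_ ?_ hf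
    · exact ⟨0, S.zero_mem, by simp⟩
    · rintro a b - - ⟨v, hv, ha⟩ ⟨w, hw, hb⟩
      refine ⟨v + w, S.add_mem hv hw, ?_⟩
      have : (a + b) * x p (v + w) = a * x p v * x p w + b * x p w * x p v := by
        rw [x_add]; ring
      rw [this]
      exact add_mem (mul_mem ha (x_mem_kS p hw)) (mul_mem hb (x_mem_kS p hv))
    · intro u _
      obtain ⟨v, hv, huv⟩ := hS u
      exact ⟨v, hv, by rw [← x_add]; exact x_mem_kS p huv⟩
  obtain ⟨a, b, hb, rfl⟩ := IsFractionRing.div_surjective (A := LL p) y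
  obtain ⟨v, hv, ha⟩ := key _ (io_mem_top p a)
  obtain ⟨w, hw, hb'⟩ := key _ (io_mem_top p b)
  have hb0 : io p b ≠ 0 := by
    rw [Ne, map_eq_zero_iff _ (io_inj p)]; exact nonZeroDivisors.ne_zero hb
  refine ⟨_, mul_mem ha (x_mem_kS p hw), _, mul_mem hb' (x_mem_kS p hv), ?_, ?_⟩
  · exact mul_ne_zero (mul_ne_zero hb0 (x_ne_zero p w)) (x_ne_zero p v)
  · have := x_ne_zero p w
    have := x_ne_zero p v
    field_simp

/-! The trace map -/

variable (e : ℕ)

lemma q_ne_zero : p ^ e ≠ 0 := pow_ne_zero _ (Fact.out : p.Prime).ne_zero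

lemma nsmul_inj : Function.Injective (fun u : G => (p ^ e) • u) := by
  intro u v h
  exact smul_right_injective G (q_ne_zero p e) h

noncomputable def PhiL : LL p →+ LL p :=
  comapDomainAddMonoidHom (fun u : G => (p ^ e) • u) (nsmul_inj p e)

lemma PhiL_single_nsmul (v : G) : PhiL p e (single ((p ^ e) • v) 1) = single v 1 :=
  comapDomain_single_map (fun u : G => (p ^ e) • u) (nsmul_inj p e) v 1

lemma PhiL_single_of_not {u : G} (hu : ¬ ∃ v : G, (p ^ e) • v = u) :
    PhiL p e (single u 1) = 0 := by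
  change comapDomain (fun u : G => (p ^ e) • u) (nsmul_inj p e) (single u 1) = 0
  ext v
  rw [coeff_comapDomain, Finsupp.comapDomain_apply, coeff_single, coeff_zero, Finsupp.zero_apply,
    Finsupp.single_eq_of_ne]
  exact fun h => hu ⟨v, h⟩

lemma PhiL_pow_mul (f g : LL p) : PhiL p e (f ^ (p ^ e) * g) = f * PhiL p e g := by
  refine LL_induction p Set.univ (P := fun f => PhiL p e (f ^ (p ^ e) * g) = f * PhiL p e g)
    ?_ ?_ ?_ f (fun _ _ => trivial)
  · simp [zero_pow (q_ne_zero p e)]
  · intro a b ha hb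
    rw [add_pow_char_pow, add_mul, map_add, ha, hb, add_mul]
  · intro u _
    refine LL_induction p Set.univ
      (P := fun g => PhiL p e ((single u 1 : LL p) ^ (p ^ e) * g) = single u 1 * PhiL p e g)
      ?_ ?_ ?_ g (fun _ _ => trivial)
    · simp
    · intro a b ha hb
      rw [mul_add, map_add, ha, hb, map_add, mul_add]
    · intro w _
      rw [single_pow, one_pow, single_mul_single, mul_one]
      by_cases hw : ∃ v : G, (p ^ e) • v = w
      · obtain ⟨v, rfl⟩ := hw
        rw [← smul_add, PhiL_single_nsmul, PhiL_single_nsmul, single_mul_single, mul_one]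
      · rw [PhiL_single_of_not p e hw, PhiL_single_of_not, mul_zero]
        rintro ⟨v, hv⟩
        exact hw ⟨v - u, by rw [smul_sub, hv]; abel⟩

lemma exists_rep (y : KK p) : ∃ b c : LL p, b ≠ 0 ∧ y * io p b ^ (p ^ e) = io p c := by
  obtain ⟨a, b, hb, rfl⟩ := IsFractionRing.div_surjective (A := LL p) y
  have hb0 : io p b ≠ 0 := by
    rw [Ne, map_eq_zero_iff _ (io_inj p)]; exact nonZeroDivisors.ne_zero hb
  refine ⟨b, a * b ^ (p ^ e - 1), nonZeroDivisors.ne_zero hb, ?_⟩
  obtain ⟨n, hn⟩ := Nat.exists_eq_succ_of_ne_zero (q_ne_zero p e)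
  rw [hn, map_mul, map_pow]
  simp only [Nat.succ_sub_one, pow_succ]
  field_simp

noncomputable def PhiFun (y : KK p) : KK p :=
  io p (PhiL p e (exists_rep p e y).choose_spec.choose) / io p (exists_rep p e y).choose

lemma PhiFun_spec (y : KK p) (b c : LL p) (hb : b ≠ 0) (h : y * io p b ^ (p ^ e) = io p c) :
    PhiFun p e y = io p (PhiL p e c) / io p b := by
  unfold PhiFun
  obtain ⟨hb', h'⟩ := (exists_rep p e y).choose_spec.choose_spec
  generalize (exists_rep p e y).choose_spec.choose = c' at *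
  generalize (exists_rep p e y).choose = b' at *
  have h1 : b' ^ (p ^ e) * c = b ^ (p ^ e) * c' := by
    apply io_inj p
    rw [map_mul, map_mul, map_pow, map_pow, ← h, ← h']; ring
  have h2 := congrArg (PhiL p e) h1
  rw [PhiL_pow_mul, PhiL_pow_mul] at h2
  have hb0 : io p b ≠ 0 := by rwa [Ne, map_eq_zero_iff _ (io_inj p)]
  have hb1 : io p b' ≠ 0 := by rwa [Ne, map_eq_zero_iff _ (io_inj p)]
  rw [div_eq_div_iff hb1 hb0, ← map_mul, ← map_mul, mul_comm, ← h2, mul_comm]

/-- The trace map on the function field -/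
noncomputable def Phi : KK p →+ KK p where
  toFun := PhiFun p e
  map_zero' := by
    rw [PhiFun_spec p e 0 1 0 one_ne_zero (by simp)]; simp
  map_add' y z := by
    obtain ⟨b, c, hb, h⟩ := exists_rep p e y
    obtain ⟨b', c', hb', h'⟩ := exists_rep p e z
    have hb0 : io p b ≠ 0 := by rwa [Ne, map_eq_zero_iff _ (io_inj p)]
    have hb1 : io p b' ≠ 0 := by rwa [Ne, map_eq_zero_iff _ (io_inj p)]
    rw [PhiFun_spec p e y b c hb h, PhiFun_spec p e z b' c' hb' h',
      PhiFun_spec p e (y + z) (b * b') (b' ^ (p ^ e) * c + b ^ (p ^ e) * c') (mul_ne_zero hb hb')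
        (by rw [map_add, map_mul, map_mul, map_mul, map_pow, map_pow, ← h, ← h']; ring),
      map_add, PhiL_pow_mul, PhiL_pow_mul, map_add, map_mul, map_mul, map_mul]
    field_simp

lemma Phi_io (c : LL p) : Phi p e (io p c) = io p (PhiL p e c) := by
  change PhiFun p e _ = _
  rw [PhiFun_spec p e _ 1 c one_ne_zero (by simp)]; simp

lemma Phi_pow_mul (z y : KK p) : Phi p e (z ^ (p ^ e) * y) = z * Phi p e y := by
  change PhiFun p e _ = z * PhiFun p e _
  obtain ⟨b, c, hb, h⟩ := exists_rep p e y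
  obtain ⟨a, d, hd, rfl⟩ := IsFractionRing.div_surjective (A := LL p) z
  have hd' : d ≠ 0 := nonZeroDivisors.ne_zero hd
  have hb0 : io p b ≠ 0 := by rwa [Ne, map_eq_zero_iff _ (io_inj p)]
  have hd0 : io p d ≠ 0 := by rwa [Ne, map_eq_zero_iff _ (io_inj p)]
  rw [PhiFun_spec p e y b c hb h, PhiFun_spec p e _ (d * b) (a ^ (p ^ e) * c) (mul_ne_zero hd' hb)
    (by rw [map_mul, map_mul, map_pow, ← h, mul_pow, div_pow]; field_simp),
    PhiL_pow_mul, map_mul, map_mul]
  field_simp

lemma Phi_x_nsmul (v : G) : Phi p e (x p ((p ^ e) • v)) = x p v := by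
  unfold x; rw [Phi_io, PhiL_single_nsmul]

lemma Phi_x_of_not {u : G} (hu : ¬ ∃ v : G, (p ^ e) • v = u) : Phi p e (x p u) = 0 := by
  unfold x; rw [Phi_io, PhiL_single_of_not p e hu, map_zero]

/-- Decomposition along a complete residue system -/
lemma decomp {ι : Type} [Fintype ι] (T : ι → G)
    (hT : ∀ u : G, ∃! i, ∃ v : G, (p ^ e) • v = u - T i) (y : KK p) :
    y = ∑ i, Phi p e (y * x p (-T i)) ^ (p ^ e) * x p (T i) := by
  classical
  have key : ∀ f ∈ kS p ⊤, f = ∑ i, Phi p e (f * x p (-T i)) ^ (p ^ e) * x p (T i) := by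
    intro f hf
    refine kS_induction p (S := ⊤)
      (P := fun f => f = ∑ i, Phi p e (f * x p (-T i)) ^ (p ^ e) * x p (T i)) ?_ ?_ ?_ hf
    · simp [zero_pow (q_ne_zero p e)]
    · intro a b _ _ ha hb
      simp only [add_mul, map_add, add_pow_char_pow, Finset.sum_add_distrib]
      rw [← ha, ← hb]
    · intro u _
      obtain ⟨i, ⟨v, hv⟩, hi⟩ := hT u
      rw [Finset.sum_eq_single i]
      · rw [← x_add, ← sub_eq_add_neg, ← hv, Phi_x_nsmul, ← x_nsmul, ← x_add, hv, sub_add_cancel]
      · intro j _ hj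
        rw [← x_add, ← sub_eq_add_neg, Phi_x_of_not p e (fun h => hj (hi j h)),
          zero_pow (q_ne_zero p e), zero_mul]
      · simp
  obtain ⟨b, c, hb, h⟩ := exists_rep p e y
  have hb0 : io p b ≠ 0 := by rwa [Ne, map_eq_zero_iff _ (io_inj p)]
  have hy : y = (io p b)⁻¹ ^ (p ^ e) * io p c := by
    rw [← h, inv_pow]; field_simp
  have h2 := key _ (io_mem_top p c)
  conv_lhs => rw [hy, h2, Finset.mul_sum]
  refine Finset.sum_congr rfl (fun i _ => ?_)
  conv_rhs => rw [hy, mul_assoc, Phi_pow_mul, mul_pow]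
  ring

/-- the standard residue system in the coordinates of a lattice basis -/
def resid (F : G ≃+ G) (n : Fin 3 → Fin (p ^ e)) : G := F (fun i => (n i : ℤ))

lemma resid_spec (F : G ≃+ G) (u : G) : ∃! n, ∃ v : G, (p ^ e) • v = u - resid p e F n := by
  have hq : (0 : ℤ) < ((p ^ e : ℕ) : ℤ) := by exact_mod_cast Nat.pos_of_ne_zero (q_ne_zero p e)
  refine ⟨fun i => ⟨(F.symm u i % ((p ^ e : ℕ) : ℤ)).toNat, ?_⟩, ⟨F (fun i => F.symm u i / ((p ^ e : ℕ) : ℤ)), ?_⟩, ?_⟩
  · have h1 := Int.emod_lt_of_pos (F.symm u i) hq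
    have h2 := Int.emod_nonneg (F.symm u i) hq.ne'
    omega
  · apply F.symm.injective
    rw [map_nsmul, map_sub, resid, F.symm_apply_apply, F.symm_apply_apply]
    ext i
    have h2 := Int.emod_nonneg (F.symm u i) hq.ne'
    have h3 := Int.mul_ediv_add_emod (F.symm u i) ((p ^ e : ℕ) : ℤ)
    simp only [Pi.smul_apply, nsmul_eq_mul, Pi.sub_apply, Int.toNat_of_nonneg h2]
    omega
  · rintro n ⟨v, hv⟩
    ext i
    have h0 := congrArg F.symm hv
    rw [map_nsmul, map_sub, resid, F.symm_apply_apply] at h0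
    have := congrFun h0 i
    simp only [Pi.smul_apply, nsmul_eq_mul, Pi.sub_apply] at this
    have h1 : F.symm u i = (n i : ℤ) + ((p ^ e : ℕ) : ℤ) * F.symm v i := by omega
    have h2 : ((n i : ℕ) : ℤ) < ((p ^ e : ℕ) : ℤ) := by exact_mod_cast (n i).2
    simp only
    rw [h1, Int.add_mul_emod_self_left, Int.emod_eq_of_lt (by positivity) h2]
    simp

end Pool.Agent.H781Z.FSig
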