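import Pool.Agent.H781Z.FSig.Defs

set_option linter.unusedSectionVars false

namespace Pool.Agent.H781Z.FSig

variable {R : Type} [CommRing R] [IsDomain R] [IsNoetherianRing R]
variable {K : Type} [Field K] [Algebra R K] [IsFractionRing R K]

lemma mem_locAt_iff (P : PrimeDiv R) (y : K) :
    y ∈ locAt K P ↔ ∃ s : R, s ∉ P.1.asIdeal ∧ ∃ a : R, algebraMap R K s * y = algebraMap R K a := by
  constructor
  · rintro ⟨a, s, hs, rfl⟩
    refine ⟨s, hs, a, ?_⟩
    have : algebraMap R K s ≠ 0 := by
      intro h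
      rw [map_eq_zero_iff _ (IsFractionRing.injective R K)] at h
      exact hs (h ▸ P.1.asIdeal.zero_mem)
    field_simp
  · rintro ⟨s, hs, a, h⟩
    refine ⟨a, s, hs, ?_⟩
    have : algebraMap R K s ≠ 0 := by
      intro h
      rw [map_eq_zero_iff _ (IsFractionRing.injective R K)] at h
      exact hs (h ▸ P.1.asIdeal.zero_mem)
    rw [← h]; field_simp

lemma PrimeDiv.ne_bot (P : PrimeDiv R) : P.1.asIdeal ≠ ⊥ := by
  intro h
  have := P.2
  rw [h, Ideal.height_bot] at this
  exact zero_ne_one this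

lemma ordFrac_ne_zero (P : PrimeDiv R) {y : K} (hy : y ≠ 0) : Ring.ordFrac (locAt K P) y ≠ 0 := by
  simpa using hy

lemma ord_mul (P : PrimeDiv R) {y z : K} (hy : y ≠ 0) (hz : z ≠ 0) :
    ord K P (y * z) = ord K P y + ord K P z := by
  unfold ord
  rw [map_mul, WithZero.log_mul (ordFrac_ne_zero P hy) (ordFrac_ne_zero P hz)]

lemma ord_one (P : PrimeDiv R) : ord K P 1 = 0 := by
  unfold ord; simp

lemma ord_inv (P : PrimeDiv R) (y : K) : ord K P y⁻¹ = - ord K P y := by
  unfold ord; simp

lemma ord_pow (P : PrimeDiv R) (y : K) (n : ℕ) : ord K P (y ^ n) = n * ord K P y := by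
  unfold ord; simp

lemma ord_div (P : PrimeDiv R) {y z : K} (hy : y ≠ 0) (hz : z ≠ 0) :
    ord K P (y / z) = ord K P y - ord K P z := by
  rw [div_eq_mul_inv, ord_mul P hy (inv_ne_zero hz), ord_inv]; ring

variable [IsIntegrallyClosed R]

instance dvr_locAt (P : PrimeDiv R) : IsDiscreteValuationRing (locAt K P) := by
  have hloc : IsLocalRing (locAt K P) := IsLocalization.AtPrime.isLocalRing _ P.1.asIdeal
  have hic : IsIntegrallyClosed (locAt K P) :=
    isIntegrallyClosed_of_isLocalization _ P.1.asIdeal.primeCompl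
      P.1.asIdeal.primeCompl_le_nonZeroDivisors
  have hnf : ¬ IsField (locAt K P) :=
    IsLocalization.AtPrime.not_isField R P.ne_bot _
  have key : IsDiscreteValuationRing (locAt K P) ↔ (IsIntegrallyClosed (locAt K P) ∧
      ∃! Q : Ideal (locAt K P), Q ≠ ⊥ ∧ Q.IsPrime) :=
    (IsDiscreteValuationRing.TFAE (locAt K P) hnf).out 0 3
  refine key.2 ⟨hic, ?_⟩
  refine ⟨IsLocalRing.maximalIdeal _, ⟨IsLocalRing.isField_iff_maximalIdeal_eq.not.mp hnf,
    inferInstance⟩, ?_⟩
  rintro Q ⟨hQ, hQ'⟩
  exact IsLocalRing.eq_maximalIdeal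
    (Ring.krullDimLE_one_iff_of_noZeroDivisors.mp inferInstance _ hQ hQ')

lemma mem_locAt_iff_ord (P : PrimeDiv R) {y : K} (hy : y ≠ 0) :
    y ∈ locAt K P ↔ 0 ≤ ord K P y := by
  unfold ord
  rw [Ring.ordFrac_eq_valuation_inv, WithZero.log_inv, Left.nonneg_neg_iff]
  have h0 : (IsDiscreteValuationRing.maximalIdeal (locAt K P)).valuation K y ≠ 0 := by
    simpa using hy
  rw [WithZero.log_le_iff_le_exp h0, WithZero.exp_zero]
  constructor
  · intro h
    exact IsDedekindDomain.HeightOneSpectrum.valuation_le_one _ (⟨y, h⟩ : locAt K P)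
  · intro h
    obtain ⟨a, ha⟩ := IsDiscreteValuationRing.exists_lift_of_le_one h
    rw [← ha]; exact a.2

lemma mem_locAt_or_inv (P : PrimeDiv R) (y : K) : y ∈ locAt K P ∨ y⁻¹ ∈ locAt K P := by
  by_cases hy : y = 0
  · left; rw [hy]; exact zero_mem _
  rw [mem_locAt_iff_ord P hy, mem_locAt_iff_ord P (inv_ne_zero hy), ord_inv]
  omega

lemma ord_eq_zero_of_notMem (P : PrimeDiv R) {s : R} (hs : s ∉ P.1.asIdeal) :
    ord K P (algebraMap R K s) = 0 := by
  have h0 : algebraMap R K s ≠ 0 := by
    intro h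
    rw [map_eq_zero_iff _ (IsFractionRing.injective R K)] at h
    exact hs (h ▸ P.1.asIdeal.zero_mem)
  have h1 : algebraMap R K s ∈ locAt K P := (locAt K P).algebraMap_mem s
  have h2 : (algebraMap R K s)⁻¹ ∈ locAt K P :=
    (mem_locAt_iff P _).2 ⟨s, hs, 1, by rw [mul_inv_cancel₀ h0, map_one]⟩
  rw [mem_locAt_iff_ord P h0] at h1
  rw [mem_locAt_iff_ord P (inv_ne_zero h0), ord_inv] at h2
  omega

lemma exists_ord_eq (P : PrimeDiv R) (n : ℤ) : ∃ y : K, y ≠ 0 ∧ ord K P y = n := by
  obtain ⟨t, ht⟩ := IsDiscreteValuationRing.exists_irreducible (locAt K P)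
  have h1 := Ring.ordFrac_irreducible (K := K) ht
  refine ⟨(algebraMap (locAt K P) K t) ^ n, zpow_ne_zero _ ?_, ?_⟩
  · intro h
    rw [h, map_zero] at h1
    exact WithZero.exp_ne_zero h1.symm
  · unfold ord
    rw [map_zpow₀, h1, WithZero.log_zpow]; simp

/-- A Noetherian normal domain is the intersection of its localizations at height one primes. -/
lemma mem_range_of_forall_locAt (y : K) (hy : ∀ P : PrimeDiv R, y ∈ locAt K P) :
    ∃ a : R, algebraMap R K a = y := by
  by_contra hcon
  -- denominators ideal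
  let den : K → Ideal R := fun z => (Submodule.span R {(1 : K)}).comap
    (LinearMap.toSpanSingleton R K z)
  have hden : ∀ z r, r ∈ den z ↔ ∃ a : R, algebraMap R K a = algebraMap R K r * z := by
    intro z r
    simp only [den, Submodule.mem_comap, LinearMap.toSpanSingleton_apply,
      Submodule.mem_span_singleton, Algebra.smul_def, mul_one]
  let S : Set (Ideal R) := {I | ∃ r : R, (¬ ∃ a : R, algebraMap R K a = algebraMap R K r * y) ∧
    I = den (algebraMap R K r * y)}
  have hS : S.Nonempty := ⟨_, 1, by simpa using hcon, rfl⟩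
  obtain ⟨I, ⟨r, hr, rfl⟩, hmax⟩ := set_has_maximal_iff_noetherian.2
    (inferInstance : IsNoetherian R R) S hS
  set g := algebraMap R K r * y with hg
  have hprime : (den g).IsPrime := by
    refine ⟨?_, ?_⟩
    · intro h
      have : (1 : R) ∈ den g := h ▸ Submodule.mem_top
      rw [hden] at this
      exact hr (by simpa using this)
    · intro u v huv
      by_contra hne
      push Not at hne
      obtain ⟨hu, hv⟩ := hne
      rw [hden] at hv
      have hmem : den (algebraMap R K (v * r) * y) ∈ S :=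
        ⟨v * r, by rw [map_mul, mul_assoc]; exact hv, rfl⟩
      apply hmax _ hmem
      refine lt_of_le_of_ne ?_ ?_
      · intro w hw
        rw [hden] at hw ⊢
        obtain ⟨a, ha⟩ := hw
        refine ⟨v * a, ?_⟩
        rw [map_mul, map_mul, ha, hg]; ring
      · intro heq
        apply hu
        rw [heq, hden]
        rw [hden] at huv
        obtain ⟨a, ha⟩ := huv
        refine ⟨a, ?_⟩
        rw [ha, map_mul, map_mul, hg]; ring
  have hne : den g ≠ ⊥ := by
    obtain ⟨a, b, hb, hab⟩ := IsFractionRing.div_surjective (A := R) g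
    have hb0 : b ≠ 0 := nonZeroDivisors.ne_zero hb
    have hb1 : algebraMap R K b ≠ 0 := by
      rwa [Ne, map_eq_zero_iff _ (IsFractionRing.injective R K)]
    intro h
    have : b ∈ den g := by
      rw [hden]; exact ⟨a, by rw [← hab]; field_simp⟩
    rw [h] at this
    exact hb0 this
  -- there is t in the prime with g t = c outside the prime
  have hex : ∃ t ∈ den g, ∃ c : R, c ∉ den g ∧ algebraMap R K c = algebraMap R K t * g := by
    by_contra hno
    push Not at hno
    apply hr
    have hint : IsIntegral R g := by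
      refine isIntegral_of_smul_mem_submodule
        (Submodule.map (Algebra.linearMap R K) (den g)) ?_ ?_ g ?_
      · intro h
        apply hne
        rw [eq_bot_iff]
        intro t ht
        have : algebraMap R K t ∈ Submodule.map (Algebra.linearMap R K) (den g) := ⟨t, ht, rfl⟩
        rw [h, Submodule.mem_bot, map_eq_zero_iff _ (IsFractionRing.injective R K)] at this
        exact this
      · exact (IsNoetherian.noetherian (den g)).map _
      · rintro _ ⟨t, ht, rfl⟩
        obtain ⟨c, hc⟩ := (hden g t).1 ht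
        refine ⟨c, ?_, ?_⟩
        · by_contra hc'
          exact hno t ht c hc' hc
        · simp only [Algebra.linearMap_apply, smul_eq_mul]
          rw [hc, mul_comm]
    exact IsIntegrallyClosed.isIntegral_iff.1 hint
  obtain ⟨t, ht, c, hc, hct⟩ := hex
  have hmin : den g ∈ (Ideal.span {t}).minimalPrimes := by
    refine ⟨⟨hprime, by rwa [Ideal.span_singleton_le_iff_mem]⟩, ?_⟩
    rintro Q ⟨hQ, hQt⟩ hQle w hw
    obtain ⟨a, ha⟩ := (hden g w).1 hw
    have : c * w = a * t := by
      apply IsFractionRing.injective R K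
      rw [map_mul, map_mul, hct, ha]; ring
    have h2 : c * w ∈ Q := by
      rw [this]; exact Q.mul_mem_left _ (hQt (Ideal.mem_span_singleton_self t))
    rcases hQ.mem_or_mem h2 with h | h
    · exact absurd (hQle h) hc
    · exact h
  have hle : (den g).height ≤ 1 :=
    Ideal.height_le_one_of_isPrincipal_of_mem_minimalPrimes (Ideal.span {t}) _ hmin
  have hge : (den g).height ≠ 0 := by
    intro h
    exact hne (Ideal.height_eq_zero_iff_eq_bot.1 h)
  let P : PrimeDiv R := ⟨⟨den g, hprime⟩, le_antisymm hle (Order.one_le_iff_ne_zero.2 hge)⟩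
  obtain ⟨s, hs, a, ha⟩ := (mem_locAt_iff P y).1 (hy P)
  apply hs
  change s ∈ den g
  rw [hden]
  refine ⟨r * a, ?_⟩
  rw [map_mul, ← ha, hg]; ring

lemma finite_primeDiv_mem {N : R} (hN : N ≠ 0) : {P : PrimeDiv R | N ∈ P.1.asIdeal}.Finite := by
  have hfin := Ideal.finite_minimalPrimes_of_isNoetherianRing R (Ideal.span {N})
  refine Set.Finite.of_finite_image (f := fun P : PrimeDiv R => P.1.asIdeal) (hfin.subset ?_) ?_
  · rintro _ ⟨P, hP, rfl⟩
    refine ⟨⟨P.1.2, by rwa [Ideal.span_singleton_le_iff_mem]⟩, ?_⟩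
    rintro Q ⟨hQ, hQN⟩ hQle
    by_contra hlt
    have hlt' : Q < P.1.asIdeal := lt_of_le_of_ne hQle (fun h => hlt (h ▸ le_rfl))
    have h1 := Ideal.height_strict_mono_of_isPrime_of_isPrime hlt'
    rw [P.2] at h1
    have h2 : Q.height = 0 := Order.lt_one_iff.1 h1
    have h3 := Ideal.height_eq_zero_iff_eq_bot.1 h2
    rw [h3] at hQN
    exact hN (hQN (Ideal.mem_span_singleton_self N))
  · intro P _ Q _ h
    exact Subtype.ext (PrimeSpectrum.ext h)

lemma frob_smul (p e : ℕ) {R M : Type} [CommRing R] [ExpChar R p] [AddCommGroup M] [Module R M]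
    (r : R) (m : M) : r • toFrob p e m = toFrob p e (r ^ (p ^ e) • m) := by
  change toFrob p e ((iterateFrobenius R p e r) • m) = _
  rw [iterateFrobenius_def]

lemma frob_add (p e : ℕ) {M : Type} [AddCommGroup M] (a b : M) :
    toFrob p e (a + b) = toFrob p e a + toFrob p e b := rfl

end Pool.Agent.H781Z.FSig
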