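import Pool.Agent.H781Z.FSig.Ring
import Pool.Agent.H781Z.FSig.Ord

set_option linter.unusedSectionVars false

namespace Pool.Agent.H781Z.FSig

open AddMonoidAlgebra

variable (p : ℕ) [Fact p.Prime]

noncomputable def RS : Subalgebra (AA p) (KK p) :=
  Localization.subalgebra.ofField (KK p) (mA p).primeCompl (mA p).primeCompl_le_nonZeroDivisors

abbrev RR : Type := RS p

instance : IsLocalization.AtPrime (RR p) (mA p) :=
  Localization.subalgebra.isLocalization_ofField (KK p) _ _

instance : IsFractionRing (RR p) (KK p) :=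
  Localization.subalgebra.isFractionRing_ofField (KK p) _ _

instance : IsLocalRing (RR p) := IsLocalization.AtPrime.isLocalRing _ (mA p)

instance : IsNoetherianRing (RR p) :=
  IsLocalization.isNoetherianRing (mA p).primeCompl _ inferInstance

instance : IsIntegrallyClosed (RR p) :=
  isIntegrallyClosed_of_isLocalization _ (mA p).primeCompl (mA p).primeCompl_le_nonZeroDivisors

instance : CharP (RR p) p := charP_of_injective_algebraMap
  (algebraMap (ZMod p) (RR p)).injective p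

instance : IsScalarTower (ZMod p) (AA p) (RR p) := IsScalarTower.of_algebraMap_eq (fun _ => rfl)

instance : Algebra.EssFiniteType (ZMod p) (RR p) :=
  haveI : Algebra.EssFiniteType (AA p) (RR p) :=
    Algebra.EssFiniteType.of_isLocalization _ (mA p).primeCompl
  Algebra.EssFiniteType.comp (ZMod p) (AA p) (RR p)

lemma dim_RR : ringKrullDim (RR p) = 3 := by
  rw [IsLocalization.AtPrime.ringKrullDim_eq_height (mA p) (RR p), mA_height]; rfl

lemma mem_RS {y : KK p} : y ∈ RS p ↔ ∃ a s : AA p, aug p s ≠ 0 ∧ y = (a : KK p) / (s : KK p) := by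
  constructor
  · rintro ⟨a, s, hs, rfl⟩
    exact ⟨a, s, hs, by rw [div_eq_mul_inv]; rfl⟩
  · rintro ⟨a, s, hs, rfl⟩
    exact ⟨a, s, hs, by rw [div_eq_mul_inv]; rfl⟩

lemma ne_zero_of_aug {s : AA p} (hs : aug p s ≠ 0) : (s : KK p) ≠ 0 := by
  intro h
  have : s = 0 := Subtype.ext h
  rw [this, map_zero] at hs
  exact hs rfl

lemma A_mem_RS (a : AA p) : (a : KK p) ∈ RS p := (RS p).algebraMap_mem a

lemma kS_mem_RS {a : KK p} (ha : a ∈ kS p SA) : a ∈ RS p := A_mem_RS p ⟨a, ha⟩

lemma inv_mem_RS {s : AA p} (hs : aug p s ≠ 0) : (s : KK p)⁻¹ ∈ RS p :=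
  (mem_RS p).2 ⟨1, s, hs, by simp⟩

lemma x_mem_RS {u : G} (hu : u ∈ SA) : x p u ∈ RS p := kS_mem_RS p (x_mem_kS p hu)

/-- monomials in the local ring -/
noncomputable def xr (u : G) (hu : u ∈ SA) : RR p := ⟨x p u, x_mem_RS p hu⟩

lemma x_not_mem_RS {v : G} (hv : v ∉ SA) : x p v ∉ RS p := by
  intro h
  obtain ⟨⟨_, g, hg, rfl⟩, ⟨_, f, hf, rfl⟩, hs, h⟩ := (mem_RS p).1 h
  have h0 := ne_zero_of_aug p hs
  rw [aug_io p f hf] at hs
  simp only at h h0
  rw [eq_div_iff h0, x, ← map_mul] at h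
  have h1 := io_inj p h
  have h2 : g.coeff v = f.coeff 0 := by
    rw [← h1]
    have := coeff_single_mul_add f (1 : ZMod p) v 0
    rw [add_zero, one_mul] at this
    exact this
  apply hv
  apply hg
  rw [Finsupp.mem_support_iff, h2]
  exact hs

noncomputable def augR : RR p →+* ZMod p :=
  IsLocalization.lift (M := (mA p).primeCompl) (g := (aug p).toRingHom) (by
    intro s
    rw [isUnit_iff_ne_zero]
    exact s.2)

lemma augR_A (a : AA p) : augR p (algebraMap (AA p) (RR p) a) = aug p a :=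
  IsLocalization.lift_eq _ _

lemma mem_max_iff (r : RR p) : r ∈ IsLocalRing.maximalIdeal (RR p) ↔ augR p r = 0 := by
  have : RingHom.ker (augR p) = IsLocalRing.maximalIdeal (RR p) := by
    apply IsLocalRing.eq_maximalIdeal
    refine RingHom.ker_isMaximal_of_surjective _ (fun c => ⟨(c.val : RR p), by
      rw [map_natCast, ZMod.natCast_zmod_val]⟩)
  rw [← this, RingHom.mem_ker]

variable (e : ℕ)

lemma finrank_residue : Module.finrank (IsLocalRing.ResidueField (RR p))
    (Frob p e (IsLocalRing.ResidueField (RR p))) = 1 := by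
  rw [finrank_eq_one_iff']
  refine ⟨toFrob p e 1, (one_ne_zero : (1 : IsLocalRing.ResidueField (RR p)) ≠ 0), ?_⟩
  intro y
  obtain ⟨r, hr⟩ := IsLocalRing.residue_surjective (R := RR p) y
  have h1 : IsLocalRing.residue (RR p) r = ((augR p r).val : IsLocalRing.ResidueField (RR p)) := by
    rw [← map_natCast (IsLocalRing.residue (RR p)), ← sub_eq_zero, ← map_sub,
      IsLocalRing.residue_eq_zero_iff, mem_max_iff, map_sub, map_natCast, ZMod.natCast_zmod_val,
      sub_self]
  refine ⟨IsLocalRing.residue (RR p) r, ?_⟩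
  rw [frob_smul, smul_eq_mul, mul_one, ← iterateFrobenius_def, ← hr, h1, map_natCast]
  rfl

/-- the lattice points of the dilated polytope -/
def InBox (q : ℕ) (u : G) : Prop :=
  u ∈ SA ∧ u 0 < q ∧ u 1 < q ∧ u 2 < q ∧ u 1 + u 2 - 2 * u 0 < q

lemma nonneg_of_mul {q a b c : ℤ} (hq : 0 < q) (h : q * a = b - c) (hb : 0 ≤ b) (hc : c < q) :
    0 ≤ a := by
  by_contra hneg
  have : a ≤ -1 := by omega
  nlinarith

lemma Phi_mem_of_frac {h : KK p} (H : ∀ a ∈ kS p SA, Phi p e (h * a) ∈ RS p) {y : KK p}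
    (hy : y ∈ RS p) : Phi p e (h * y) ∈ RS p := by
  obtain ⟨a, s, hs, rfl⟩ := (mem_RS p).1 hy
  have h0 := ne_zero_of_aug p hs
  obtain ⟨n, hn⟩ := Nat.exists_eq_succ_of_ne_zero (q_ne_zero p e)
  have : h * ((a : KK p) / s) = ((s : KK p)⁻¹) ^ (p ^ e) * (h * (a * s ^ (p ^ e - 1))) := by
    rw [hn]
    simp only [Nat.succ_sub_one, pow_succ, inv_pow]
    field_simp
  rw [this, Phi_pow_mul]
  exact mul_mem (inv_mem_RS p hs) (H _ (mul_mem a.2 (pow_mem s.2 _)))

lemma Phi_box {u : G} (hu : InBox (p ^ e) u) {y : KK p} (hy : y ∈ RS p) :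
    Phi p e (x p (-u) * y) ∈ RS p := by
  refine Phi_mem_of_frac p e (fun a ha => ?_) hy
  refine kS_induction p (P := fun a => Phi p e (x p (-u) * a) ∈ RS p) (by simp)
    (fun a b _ _ ha hb => by rw [mul_add, map_add]; exact add_mem ha hb) ?_ ha
  intro v hv
  rw [← x_add]
  by_cases hw : ∃ w : G, (p ^ e) • w = -u + v
  · obtain ⟨w, hw⟩ := hw
    rw [← hw, Phi_x_nsmul]
    refine x_mem_RS p ?_
    have hq : (0 : ℤ) < ((p ^ e : ℕ) : ℤ) := by exact_mod_cast Nat.pos_of_ne_zero (q_ne_zero p e)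
    have h0 := congrFun hw 0
    have h1 := congrFun hw 1
    have h2 := congrFun hw 2
    simp only [nsmul_app, Pi.add_apply, Pi.neg_apply] at h0 h1 h2
    obtain ⟨-, b0, b1, b2, b3⟩ := hu
    rw [mem_SA] at hv ⊢
    refine ⟨nonneg_of_mul hq (b := v 0) (by omega) hv.1 b0,
      nonneg_of_mul hq (b := v 1) (by omega) hv.2.1 b1,
      nonneg_of_mul hq (b := v 2) (by omega) hv.2.2.1 b2, ?_⟩
    have := nonneg_of_mul (a := w 1 + w 2 - 2 * w 0) hq (b := v 1 + v 2 - 2 * v 0)
      (by linear_combination h1 + h2 - 2 * h0) (by omega) b3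
    omega
  · rw [Phi_x_of_not p e hw]; exact zero_mem _

lemma Phi_mem {y : KK p} (hy : y ∈ RS p) : Phi p e y ∈ RS p := by
  have hq : (0 : ℤ) < ((p ^ e : ℕ) : ℤ) := by exact_mod_cast Nat.pos_of_ne_zero (q_ne_zero p e)
  have := Phi_box p e (u := 0) ⟨zero_mem _, hq, hq, hq, by simpa using hq⟩ hy
  simpa [x_zero] using this

/-- the `p^{-e}`-linear map attached to a multiplier -/
noncomputable def phiLin (h : KK p) (H : ∀ y ∈ RS p, Phi p e (h * y) ∈ RS p) :
    Frob p e (RR p) →ₗ[RR p] RR p where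
  toFun y := ⟨Phi p e (h * (show RR p from y).1), H _ (show RR p from y).2⟩
  map_add' a b := Subtype.ext (by
    change Phi p e (h * ((show RR p from a).1 + (show RR p from b).1)) = Phi p e _ + Phi p e _
    rw [mul_add, map_add])
  map_smul' r a := Subtype.ext (by
    have : r • a = toFrob p e (r ^ (p ^ e) • (show RR p from a)) :=
      frob_smul p e (R := RR p) (M := RR p) r a
    rw [this]
    change Phi p e (h * (r.1 ^ (p ^ e) * (show RR p from a).1)) = r.1 * Phi p e _
    rw [← Phi_pow_mul]; congr 1; ring)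

lemma phiLin_apply (h : KK p) (H : ∀ y ∈ RS p, Phi p e (h * y) ∈ RS p) (y : RR p) :
    (phiLin p e h H (toFrob p e y) : KK p) = Phi p e (h * y) := rfl

lemma resid_F0_mem (n : Fin 3 → Fin (p ^ e)) : resid p e F0 n ∈ SA := by
  rw [mem_SA]
  simp [resid, F0]
  omega

lemma finite_frob : Module.Finite (RR p) (Frob p e (RR p)) := by
  let f : Frob p e (RR p) →ₗ[RR p] ((Fin 3 → Fin (p ^ e)) → RR p) :=
    LinearMap.pi (fun n => phiLin p e (x p (resid p e F0 n))
      (fun y hy => Phi_mem p e (mul_mem (x_mem_RS p (resid_F0_mem p e n)) hy)))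
  refine Module.Finite.of_injective f ?_
  rw [injective_iff_map_eq_zero]
  intro y hy
  have hT : ∀ u : G, ∃! n, ∃ v : G, (p ^ e) • v = u - -resid p e F0 n := by
    intro u
    obtain ⟨n, ⟨v, hv⟩, hn⟩ := resid_spec p e F0 (-u)
    refine ⟨n, ⟨-v, by rw [smul_neg, hv]; abel⟩, ?_⟩
    rintro m ⟨w, hw⟩
    exact hn m ⟨-w, by rw [smul_neg, hw]; abel⟩
  have h1 := decomp p e (fun n => -resid p e F0 n) hT (show RR p from y).1
  apply Subtype.ext
  change (show RR p from y).1 = 0
  rw [h1]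
  refine Finset.sum_eq_zero (fun n _ => ?_)
  have h2 : Phi p e (x p (resid p e F0 n) * (show RR p from y).1) = 0 :=
    congrArg Subtype.val (congrFun hy n)
  rw [neg_neg, mul_comm (show RR p from y).1, h2, zero_pow (q_ne_zero p e), zero_mul]

end Pool.Agent.H781Z.FSig
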