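import Pool.Agent.H781Z.FSig.Count

set_option linter.unusedSectionVars false

namespace Pool.Agent.H781Z.FSig

open Filter Topology
open scoped ENNReal

variable (p : ℕ) [Fact p.Prime]

lemma tendsto_inv_q : Tendsto (fun e : ℕ => ((p : ℝ) ^ e)⁻¹) atTop (𝓝 0) :=
  tendsto_inv_atTop_zero.comp (tendsto_pow_atTop_atTop_of_one_lt
    (by exact_mod_cast (Fact.out : p.Prime).one_lt))

lemma ennreal_div (a e : ℕ) : (a : ℝ≥0∞) / (p : ℝ≥0∞) ^ (e * 3) =
    ENNReal.ofReal ((a : ℝ) / ((p : ℝ) ^ e) ^ 3) := by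
  have hp : (0 : ℝ) < p := by exact_mod_cast (Fact.out : p.Prime).pos
  rw [ENNReal.ofReal_div_of_pos (by positivity), ENNReal.ofReal_natCast, ← pow_mul,
    ENNReal.ofReal_pow hp.le, ENNReal.ofReal_natCast]

theorem fSignature_eq : fSignature (RR p) p 3 = 5 / 12 := by
  have hp : (0 : ℝ) < p := by exact_mod_cast (Fact.out : p.Prime).pos
  have h1 : Tendsto (fun e : ℕ => ((boxSet (p ^ e)).card : ℝ) / ((p : ℝ) ^ e) ^ 3) atTop
      (𝓝 (5 / 12)) := by
    have hl : Tendsto (fun e : ℕ => 5 / 12 - ((p : ℝ) ^ e)⁻¹) atTop (𝓝 (5 / 12)) := by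
      simpa using (tendsto_inv_q p).const_sub (5 / 12)
    have hu : Tendsto (fun e : ℕ => 5 / 12 + ((p : ℝ) ^ e)⁻¹) atTop (𝓝 (5 / 12)) := by
      simpa using (tendsto_inv_q p).const_add (5 / 12)
    refine tendsto_of_tendsto_of_tendsto_of_le_of_le hl hu (fun e => ?_) (fun e => ?_)
    · have h := (card_box (p ^ e)).1
      have h' : 5 * ((p : ℝ) ^ e) ^ 3 - 11 * ((p : ℝ) ^ e) ^ 2 ≤
          12 * ((boxSet (p ^ e)).card : ℝ) := by exact_mod_cast h
      have hq : (0 : ℝ) < (p : ℝ) ^ e := by positivity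
      generalize (p : ℝ) ^ e = q at *
      simp only
      rw [le_div_iff₀ (by positivity)]
      have : q⁻¹ * q ^ 3 = q ^ 2 := by field_simp
      nlinarith [sq_nonneg q]
    · have h := (card_box (p ^ e)).2
      have h' : 12 * ((boxSet (p ^ e)).card : ℝ) ≤
          5 * ((p : ℝ) ^ e) ^ 3 + 12 * ((p : ℝ) ^ e) ^ 2 := by exact_mod_cast h
      have hq : (0 : ℝ) < (p : ℝ) ^ e := by positivity
      generalize (p : ℝ) ^ e = q at *
      simp only
      rw [div_le_iff₀ (by positivity)]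
      have : q⁻¹ * q ^ 3 = q ^ 2 := by field_simp
      nlinarith [sq_nonneg q]
  have h2 := (ENNReal.tendsto_ofReal h1).liminf_eq
  rw [ENNReal.ofReal_div_of_pos (by norm_num), ENNReal.ofReal_ofNat, ENNReal.ofReal_ofNat] at h2
  rw [← h2, fSignature]
  congr 1
  ext e
  rw [finrank_residue, freeRank_eq, Nat.cast_one, one_mul, ENat.toENNReal_coe, ennreal_div]

theorem fSignaturePair_le {D : PrimeDiv (RR p) →₀ ℤ}
    (hD : IsCanonicalDivisor (KK p) (ZMod p) 3 D) (Δ : EffQDiv (RR p))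
    (H : IsQCartierPrimeTo (KK p) p D Δ) : fSignaturePair (KK p) p 3 Δ ≤ 1 / 3 := by
  obtain ⟨n, hn1, hnp, g, hg, H⟩ := H
  have hp : (0 : ℝ) < p := by exact_mod_cast (Fact.out : p.Prime).pos
  have hu : Tendsto (fun e : ℕ => ENNReal.ofReal (1 / 3 + 2 * ((p : ℝ) ^ e)⁻¹)) atTop
      (𝓝 (1 / 3)) := by
    have h1 : Tendsto (fun e : ℕ => 1 / 3 + 2 * ((p : ℝ) ^ e)⁻¹) atTop (𝓝 (1 / 3)) := by
      have := ((tendsto_inv_q p).const_mul 2).const_add (1 / 3)
      rwa [mul_zero, add_zero] at this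
    have h2 := ENNReal.tendsto_ofReal h1
    rwa [ENNReal.ofReal_div_of_pos (by norm_num), ENNReal.ofReal_one, ENNReal.ofReal_ofNat] at h2
  have hfreq : ∃ᶠ e : ℕ in atTop, n ∣ p ^ e - 1 := by
    rw [frequently_atTop]
    intro a
    have hco : Nat.Coprime p n := (Nat.Prime.coprime_iff_not_dvd Fact.out).2 hnp
    have hphi : 0 < Nat.totient n := Nat.totient_pos.2 hn1
    refine ⟨Nat.totient n * a, Nat.le_mul_of_pos_left _ hphi, ?_⟩
    have h1 := (Nat.ModEq.pow_totient hco).pow a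
    rw [one_pow, ← pow_mul] at h1
    exact (Nat.modEq_iff_dvd' (Nat.pos_of_ne_zero (q_ne_zero p _))).1 h1.symm
  refine le_of_forall_gt_imp_ge_of_dense (fun b hb => ?_)
  refine liminf_le_of_frequently_le' ((hfreq.and_eventually (hu.eventually_lt_const hb)).mono ?_)
  rintro e ⟨he, hlt⟩
  refine le_trans ?_ hlt.le
  have h1 := length_le p e hD Δ n g hg H he
  have h2 : (Module.length (RR p) (RR p ⧸ splittingIdeal (KK p) p e Δ) : ℝ≥0∞) ≤
      ((2 * (lowSet (p ^ e)).card : ℕ) : ℝ≥0∞) := by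
    rw [← ENat.toENNReal_coe, ENat.toENNReal_le]
    exact_mod_cast h1
  refine (ENNReal.div_le_div_right h2 _).trans ?_
  rw [ennreal_div]
  refine ENNReal.ofReal_le_ofReal ?_
  have h := card_low_le (p ^ e)
  have h' : 6 * (2 * ((lowSet (p ^ e)).card : ℝ)) ≤
      2 * ((p : ℝ) ^ e) ^ 3 + 6 * ((p : ℝ) ^ e) ^ 2 + 4 * (p : ℝ) ^ e := by exact_mod_cast h
  have hq : (1 : ℝ) ≤ (p : ℝ) ^ e :=
    one_le_pow₀ (by exact_mod_cast (Fact.out : p.Prime).one_lt.le)
  generalize (p : ℝ) ^ e = q at *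
  rw [div_le_iff₀ (by positivity)]
  have : q⁻¹ * q ^ 3 = q ^ 2 := by field_simp
  push_cast
  nlinarith [sq_nonneg q]

end Pool.Agent.H781Z.FSig
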