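import Pool.Agent.H781Z.FSig.Chart

set_option linter.unusedSectionVars false
set_option linter.unnecessarySeqFocus false

namespace Pool.Agent.H781Z.FSig

open AddMonoidAlgebra

variable (p : ℕ) [Fact p.Prime]

/-- monomial as an element of the monoid algebra -/
noncomputable def xs (S : AddSubmonoid G) (u : G) (hu : u ∈ S) : kS p S := ⟨x p u, x_mem_kS p hu⟩

lemma kS_ind {S : AddSubmonoid G} {P : kS p S → Prop} (h0 : P 0)
    (hadd : ∀ a b, P a → P b → P (a + b)) (hx : ∀ u (hu : u ∈ S), P (xs p S u hu))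
    (y : kS p S) : P y := by
  obtain ⟨y, hy⟩ := y
  exact kS_induction p (P := fun y => ∀ h : y ∈ kS p S, P ⟨y, h⟩) (fun _ => h0)
    (fun a b ha hb h1 h2 _ => hadd ⟨a, ha⟩ ⟨b, hb⟩ (h1 ha) (h2 hb)) (fun u hu _ => hx u hu) hy hy

noncomputable def toK (S : AddSubmonoid G) : AddMonoidAlgebra (ZMod p) S →ₐ[ZMod p] KK p :=
  (IsScalarTower.toAlgHom (ZMod p) (LL p) (KK p)).comp
    (mapDomainAlgHom (ZMod p) (ZMod p) S.subtype)

lemma toK_single (S : AddSubmonoid G) (u : S) : toK p S (single u 1) = x p u := by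
  change io p (mapDomain _ (single u 1)) = _
  rw [mapDomain_single]; rfl

lemma toK_inj (S : AddSubmonoid G) : Function.Injective (toK p S) :=
  (io_inj p).comp (mapDomain_injective Subtype.val_injective)

lemma toK_mem (S : AddSubmonoid G) (f : AddMonoidAlgebra (ZMod p) S) : toK p S f ∈ kS p S := by
  induction f using AddMonoidAlgebra.induction_linear with
  | zero => simp
  | add a b ha hb => rw [map_add]; exact add_mem ha hb
  | single u c =>
    have : (single u c : AddMonoidAlgebra (ZMod p) S) = c • single u 1 := by simp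
    rw [this, map_smul, toK_single]
    exact Subalgebra.smul_mem _ (x_mem_kS p u.2) _

noncomputable def kSEquiv (S : AddSubmonoid G) :
    AddMonoidAlgebra (ZMod p) S ≃ₐ[ZMod p] kS p S :=
  AlgEquiv.ofBijective ((toK p S).codRestrict (kS p S) (toK_mem p S)) ⟨by
    intro a b h
    exact toK_inj p S (congrArg Subtype.val h), by
    intro y
    induction y using kS_ind with
    | h0 => exact ⟨0, map_zero _⟩
    | hadd a b ha hb =>
      obtain ⟨a, rfl⟩ := ha
      obtain ⟨b, rfl⟩ := hb
      exact ⟨a + b, map_add _ _ _⟩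
    | hx u hu => exact ⟨single ⟨u, hu⟩ 1, Subtype.ext (toK_single p S _)⟩⟩

lemma kSEquiv_symm_xs (S : AddSubmonoid G) (u : G) (hu : u ∈ S) :
    (kSEquiv p S).symm (xs p S u hu) = single ⟨u, hu⟩ 1 := by
  rw [AlgEquiv.symm_apply_eq]
  exact Subtype.ext (toK_single p S ⟨u, hu⟩).symm

/-- algebra maps out of the monoid algebra -/
noncomputable def liftS (S : AddSubmonoid G) {T : Type} [CommRing T] [Algebra (ZMod p) T]
    (χ : Multiplicative S →* T) : kS p S →ₐ[ZMod p] T :=
  (AddMonoidAlgebra.lift (ZMod p) T S χ).comp (kSEquiv p S).symm.toAlgHom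

lemma liftS_xs (S : AddSubmonoid G) {T : Type} [CommRing T] [Algebra (ZMod p) T]
    (χ : Multiplicative S →* T) (u : G) (hu : u ∈ S) :
    liftS p S χ (xs p S u hu) = χ (Multiplicative.ofAdd ⟨u, hu⟩) := by
  change AddMonoidAlgebra.lift (ZMod p) T S χ ((kSEquiv p S).symm (xs p S u hu)) = _
  rw [kSEquiv_symm_xs, lift_single, one_smul]

lemma isFrac {S : AddSubmonoid G} (hS : ∀ u : G, ∃ v ∈ S, u + v ∈ S) :
    IsFractionRing (kS p S) (KK p) := by
  refine IsFractionRing.of_field _ _ (fun y => ?_)
  obtain ⟨a, ha, b, hb, -, h⟩ := exists_frac p hS y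
  exact ⟨⟨a, ha⟩, ⟨b, hb⟩, h⟩

/-- the chart monoid is free -/
noncomputable def chartEquiv (F : G ≃+ G) : chartMon F ≃+ (Fin 3 →₀ ℕ) where
  toFun u := Finsupp.equivFunOnFinite.symm (fun i => (F.symm u i).toNat)
  invFun n := ⟨F (fun i => (n i : ℤ)), fun i => by simp⟩
  left_inv u := by
    apply Subtype.ext
    apply F.symm.injective
    ext i
    simpa using u.2 i
  right_inv n := by ext i; simp
  map_add' u v := by
    ext i
    simp [Int.toNat_add (u.2 i) (v.2 i)]

lemma chart_frac (F : G ≃+ G) (u : G) : ∃ v ∈ chartMon F, u + v ∈ chartMon F :=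
  ⟨F (fun i => |F.symm u i|), fun i => by simp, fun i => by
      rw [map_add, F.symm_apply_apply, Pi.add_apply]
      have := neg_abs_le (F.symm u i)
      omega⟩

lemma chart_intClosed (F : G ≃+ G) : IsIntegrallyClosed (kS p (chartMon F)) :=
  IsIntegrallyClosed.of_equiv (R := MvPolynomial (Fin 3) (ZMod p))
    ((domCongr (ZMod p) (ZMod p) (chartEquiv F).symm).trans (kSEquiv p _)).toRingEquiv

/-! The specific toric data. Coordinates of `u` are `(b, c, d)`, and `a = c + d - 2 b`. -/

def F0 : G ≃+ G where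
  toFun n := ![n 0, n 0 + n 1, n 0 + n 2]
  invFun u := ![u 0, u 1 - u 0, u 2 - u 0]
  left_inv n := by ext i; fin_cases i <;> simp
  right_inv n := by ext i; fin_cases i <;> simp
  map_add' u v := by ext i; fin_cases i <;> simp <;> ring

def F1 : G ≃+ G where
  toFun n := ![n 2, n 0 - n 1 + 2 * n 2, n 1]
  invFun u := ![u 1 + u 2 - 2 * u 0, u 2, u 0]
  left_inv n := by ext i; fin_cases i <;> simp <;> ring
  right_inv n := by ext i; fin_cases i <;> simp <;> ring
  map_add' u v := by ext i; fin_cases i <;> simp <;> ring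

def F2 : G ≃+ G where
  toFun n := ![n 2, n 1, n 0 - n 1 + 2 * n 2]
  invFun u := ![u 1 + u 2 - 2 * u 0, u 1, u 0]
  left_inv n := by ext i; fin_cases i <;> simp <;> ring
  right_inv n := by ext i; fin_cases i <;> simp <;> ring
  map_add' u v := by ext i; fin_cases i <;> simp <;> ring

def SA : AddSubmonoid G := chartMon F1 ⊓ chartMon F2

lemma mem_SA {u : G} : u ∈ SA ↔ 0 ≤ u 0 ∧ 0 ≤ u 1 ∧ 0 ≤ u 2 ∧ 2 * u 0 ≤ u 1 + u 2 := by
  simp only [SA, AddSubmonoid.mem_inf, mem_chartMon, Fin.forall_fin_succ, F1, F2]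
  simp
  omega

lemma SA_frac (u : G) : ∃ v ∈ SA, u + v ∈ SA := by
  refine ⟨![|u 0|, 2 * |u 0| + |u 1| + |u 2|, 2 * |u 0| + |u 1| + |u 2|], ?_, ?_⟩
  · rw [mem_SA]; simp
    have := abs_nonneg (u 0); have := abs_nonneg (u 1); have := abs_nonneg (u 2)
    omega
  · rw [mem_SA]; simp
    have := abs_nonneg (u 0); have := abs_nonneg (u 1); have := abs_nonneg (u 2)
    have := neg_abs_le (u 0); have := neg_abs_le (u 1); have := neg_abs_le (u 2)
    have := le_abs_self (u 0); have := le_abs_self (u 1); have := le_abs_self (u 2)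
    omega

abbrev AA : Type := kS p SA

instance : IsFractionRing (AA p) (KK p) := isFrac p SA_frac

instance : IsIntegrallyClosed (AA p) := by
  rw [isIntegrallyClosed_iff (KK p)]
  intro y hy
  have key : ∀ F : G ≃+ G, SA ≤ chartMon F → y ∈ kS p (chartMon F) := by
    intro F hF
    have := chart_intClosed p F
    have := isFrac p (chart_frac F)
    let : Algebra (AA p) (kS p (chartMon F)) := (Subalgebra.inclusion (kS_mono p hF)).toAlgebra
    have : IsScalarTower (AA p) (kS p (chartMon F)) (KK p) :=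
      IsScalarTower.of_algebraMap_eq (fun _ => rfl)
    obtain ⟨z, hz⟩ := (isIntegrallyClosed_iff (KK p)).1 (chart_intClosed p F)
      (IsIntegral.tower_top (A := kS p (chartMon F)) hy)
    rw [← hz]; exact z.2
  exact ⟨⟨y, kS_inf p (key F1 inf_le_left) (key F2 inf_le_right)⟩, rfl⟩

def gA : G := ![0, 1, 0]
def gB : G := ![0, 0, 1]
def gC : G := ![1, 2, 0]
def gD : G := ![1, 1, 1]
def gE : G := ![1, 0, 2]

lemma gA_mem : gA ∈ SA := by rw [mem_SA]; simp [gA]
lemma gB_mem : gB ∈ SA := by rw [mem_SA]; simp [gB]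
lemma gC_mem : gC ∈ SA := by rw [mem_SA]; simp [gC]
lemma gD_mem : gD ∈ SA := by rw [mem_SA]; simp [gD]
lemma gE_mem : gE ∈ SA := by rw [mem_SA]; simp [gE]

lemma eq_zero_iff {u : G} : u = 0 ↔ u 0 = 0 ∧ u 1 = 0 ∧ u 2 = 0 := by
  constructor
  · rintro rfl; simp
  · rintro ⟨h0, h1, h2⟩
    ext i; fin_cases i <;> simpa

lemma exists_gen {u : G} (hu : u ∈ SA) (h0 : u ≠ 0) :
    ∃ g ∈ ({gA, gB, gC, gD, gE} : Finset G), u - g ∈ SA := by
  rw [mem_SA] at hu
  rw [Ne, eq_zero_iff] at h0
  simp only [Finset.mem_insert, Finset.mem_singleton, exists_eq_or_imp, exists_eq_left, mem_SA,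
    gA, gB, gC, gD, gE]
  simp
  omega

lemma gen_pos {g : G} (hg : g ∈ ({gA, gB, gC, gD, gE} : Finset G)) : g ∈ SA ∧ 1 ≤ g 1 + g 2 := by
  simp only [Finset.mem_insert, Finset.mem_singleton] at hg
  rcases hg with rfl | rfl | rfl | rfl | rfl
  · exact ⟨gA_mem, by simp [gA]⟩
  · exact ⟨gB_mem, by simp [gB]⟩
  · exact ⟨gC_mem, by simp [gC]⟩
  · exact ⟨gD_mem, by simp [gD]⟩
  · exact ⟨gE_mem, by simp [gE]⟩

lemma SA_fg : SA.FG := by
  refine ⟨{gA, gB, gC, gD, gE}, le_antisymm ?_ ?_⟩
  · rw [AddSubmonoid.closure_le]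
    intro g hg
    exact (gen_pos hg).1
  · have : ∀ n : ℕ, ∀ u ∈ SA, u 1 + u 2 ≤ n →
        u ∈ AddSubmonoid.closure (({gA, gB, gC, gD, gE} : Finset G) : Set G) := by
      intro n
      induction n with
      | zero =>
        intro u hu h
        have : u = 0 := by
          rw [mem_SA] at hu; rw [eq_zero_iff]; omega
        rw [this]; exact zero_mem _
      | succ n ih =>
        intro u hu h
        by_cases h0 : u = 0
        · rw [h0]; exact zero_mem _
        obtain ⟨g, hg, hug⟩ := exists_gen hu h0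
        have h1 := (gen_pos hg).2
        have h2 := ih _ hug (by simp only [Pi.sub_apply]; omega)
        have : u = (u - g) + g := by abel
        rw [this]
        exact add_mem h2 (AddSubmonoid.subset_closure hg)
    intro u hu
    exact this (u 1 + u 2).toNat u hu (by omega)

instance : Algebra.FiniteType (ZMod p) (AA p) :=
  haveI : AddMonoid.FG SA := (AddMonoid.fg_iff_addSubmonoid_fg _).2 SA_fg
  Algebra.FiniteType.equiv inferInstance (kSEquiv p SA)

instance : IsNoetherianRing (AA p) := Algebra.FiniteType.isNoetherianRing (ZMod p) _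

lemma xs_add {u v : G} (hu : u ∈ SA) (hv : v ∈ SA) :
    xs p SA (u + v) (add_mem hu hv) = xs p SA u hu * xs p SA v hv := Subtype.ext (x_add p u v)

lemma xs_zero : xs p SA 0 (zero_mem _) = 1 := Subtype.ext (x_zero p)

lemma xs_ne_zero {u : G} (hu : u ∈ SA) : xs p SA u hu ≠ 0 :=
  fun h => x_ne_zero p u (congrArg Subtype.val h)

/-- the projection to a face -/
noncomputable def face (l : G →+ ℤ) (hl : ∀ u ∈ SA, 0 ≤ l u) : AA p →ₐ[ZMod p] AA p :=
  liftS p SA
    { toFun := fun u => if l u.toAdd = 0 then xs p SA u.toAdd u.toAdd.2 else 0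
      map_one' := by simpa using xs_zero p
      map_mul' := by
        intro u v
        have h1 := hl _ u.toAdd.2
        have h2 := hl _ v.toAdd.2
        simp only [toAdd_mul, AddSubmonoid.coe_add, map_add]
        by_cases hu : l u.toAdd = 0 <;> by_cases hv : l v.toAdd = 0
        · rw [if_pos hu, if_pos hv, if_pos (by omega), xs_add]
        · rw [if_neg hv, if_neg (by omega), mul_zero]
        · rw [if_neg hu, if_neg (by omega), zero_mul]
        · rw [if_neg hu, if_neg (by omega), zero_mul] }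

lemma face_xs (l : G →+ ℤ) (hl : ∀ u ∈ SA, 0 ≤ l u) (u : G) (hu : u ∈ SA) :
    face p l hl (xs p SA u hu) = if l u = 0 then xs p SA u hu else 0 := liftS_xs p _ _ _ _

open Classical in
/-- the augmentation -/
noncomputable def aug : AA p →ₐ[ZMod p] ZMod p :=
  liftS p SA
    { toFun := fun u => if (u.toAdd : G) = 0 then 1 else 0
      map_one' := by simp
      map_mul' := by
        intro u v
        have h1 := mem_SA.1 u.toAdd.2
        have h2 := mem_SA.1 v.toAdd.2
        simp only [toAdd_mul, AddSubmonoid.coe_add]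
        by_cases hu : (u.toAdd : G) = 0 <;> by_cases hv : (v.toAdd : G) = 0
        · simp [hu, hv]
        · simp [hu, hv]
        · simp [hu, hv]
        · rw [if_neg hu, if_neg, zero_mul]
          rw [eq_zero_iff] at hu hv ⊢
          simp only [Pi.add_apply]
          omega }

open Classical in
lemma aug_xs (u : G) (hu : u ∈ SA) : aug p (xs p SA u hu) = if u = 0 then 1 else 0 :=
  liftS_xs p _ _ _ _

lemma aug_face (l : G →+ ℤ) (hl : ∀ u ∈ SA, 0 ≤ l u) (y : AA p) :
    aug p (face p l hl y) = aug p y := by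
  induction y using kS_ind with
  | h0 => simp
  | hadd a b ha hb => rw [map_add, map_add, map_add, ha, hb]
  | hx u hu =>
    rw [face_xs]
    split_ifs with h
    · rfl
    · rw [map_zero, aug_xs, if_neg]
      rintro rfl; simp at h

lemma aug_io (f : LL p) (hf : ∀ u ∈ f.coeff.support, u ∈ SA) :
    aug p ⟨io p f, f, hf, rfl⟩ = f.coeff 0 := by
  classical
  have := LL_induction p (SA : Set G)
    (P := fun f => ∃ h : io p f ∈ kS p SA, aug p ⟨io p f, h⟩ = f.coeff 0)
    ⟨by simp, by
      have : (⟨io p 0, by simp⟩ : AA p) = 0 := Subtype.ext (map_zero _)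
      rw [this]; simp⟩
    (by
      rintro a b ⟨ha, h1⟩ ⟨hb, h2⟩
      refine ⟨by rw [map_add]; exact add_mem ha hb, ?_⟩
      rw [coeff_add, Finsupp.add_apply, ← h1, ← h2, ← map_add (aug p)]
      congr 1
      exact Subtype.ext (map_add _ _ _))
    (by
      intro u hu
      refine ⟨x_mem_kS p hu, ?_⟩
      rw [coeff_single, Finsupp.single_apply]
      exact aug_xs p u hu) f hf
  exact this.2

/-- the homogeneous maximal ideal -/
noncomputable def mA : Ideal (AA p) := RingHom.ker (aug p)

instance : (mA p).IsMaximal :=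
  RingHom.ker_isMaximal_of_surjective _ (fun c => ⟨algebraMap _ _ c, by simp⟩)

lemma sub_aug_mem (I : Ideal (AA p)) (hI : ∀ u (hu : u ∈ SA), u ≠ 0 → xs p SA u hu ∈ I)
    (s : AA p) : s - algebraMap _ _ (aug p s) ∈ I := by
  induction s using kS_ind with
  | h0 => simp
  | hadd a b ha hb =>
    rw [map_add, map_add]
    have := I.add_mem ha hb
    convert this using 1; ring
  | hx u hu =>
    rw [aug_xs]
    split_ifs with h
    · subst h; rw [xs_zero]; simp
    · simpa using hI u hu h

lemma xs_mem_mA {u : G} (hu : u ∈ SA) (h : u ≠ 0) : xs p SA u hu ∈ mA p := by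
  rw [mA, RingHom.mem_ker, aug_xs, if_neg h]

lemma mA_height : (mA p).height = 3 := by
  apply le_antisymm
  · have hmin : mA p ∈ (Ideal.span (({xs p SA gA gA_mem, xs p SA gE gE_mem,
        xs p SA gB gB_mem + xs p SA gC gC_mem} : Set (AA p)))).minimalPrimes := by
      refine ⟨⟨inferInstance, ?_⟩, ?_⟩
      · rw [Ideal.span_le]
        rintro _ (rfl | rfl | rfl)
        · exact xs_mem_mA p _ (by rw [Ne, eq_zero_iff]; simp [gA])
        · exact xs_mem_mA p _ (by rw [Ne, eq_zero_iff]; simp [gE])
        · exact add_mem (xs_mem_mA p _ (by rw [Ne, eq_zero_iff]; simp [gB]))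
            (xs_mem_mA p _ (by rw [Ne, eq_zero_iff]; simp [gC]))
      · rintro Q ⟨hQ, hle⟩ - s hs
        have hA : xs p SA gA gA_mem ∈ Q := hle (Ideal.subset_span (by simp))
        have hE : xs p SA gE gE_mem ∈ Q := hle (Ideal.subset_span (by simp))
        have hBC : xs p SA gB gB_mem + xs p SA gC gC_mem ∈ Q := hle (Ideal.subset_span (by simp))
        have r1 : xs p SA gB gB_mem * xs p SA gC gC_mem = xs p SA gA gA_mem * xs p SA gD gD_mem := by
          rw [← xs_add, ← xs_add]
          congr 1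
          ext i; fin_cases i <;> simp [gA, gB, gC, gD]
        have r2 : xs p SA gD gD_mem * xs p SA gD gD_mem = xs p SA gE gE_mem * xs p SA gC gC_mem := by
          rw [← xs_add, ← xs_add]
          congr 1
          ext i; fin_cases i <;> simp [gE, gC, gD]
        have hB : xs p SA gB gB_mem ∈ Q := by
          have : xs p SA gB gB_mem * xs p SA gB gB_mem ∈ Q := by
            have h1 := Q.sub_mem (Q.mul_mem_left (xs p SA gB gB_mem) hBC)
              (Q.mul_mem_right (xs p SA gD gD_mem) hA)
            rw [← r1] at h1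
            convert h1 using 1; ring
          exact (hQ.mem_or_mem this).elim id id
        have hC : xs p SA gC gC_mem ∈ Q := by
          have := Q.sub_mem hBC hB
          simpa using this
        have hD : xs p SA gD gD_mem ∈ Q := by
          have : xs p SA gD gD_mem * xs p SA gD gD_mem ∈ Q := by
            rw [r2]; exact Q.mul_mem_right _ hE
          exact (hQ.mem_or_mem this).elim id id
        have hall : ∀ u (hu : u ∈ SA), u ≠ 0 → xs p SA u hu ∈ Q := by
          intro u hu h0
          obtain ⟨g, hg, hug⟩ := exists_gen hu h0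
          have h1 : xs p SA u hu = xs p SA (u - g) hug * xs p SA g (gen_pos hg).1 := by
            rw [← xs_add]; congr 1; abel
          rw [h1]
          apply Q.mul_mem_left
          simp only [Finset.mem_insert, Finset.mem_singleton] at hg
          rcases hg with rfl | rfl | rfl | rfl | rfl <;> assumption
        have := sub_aug_mem p Q hall s
        rw [show aug p s = 0 from hs] at this
        simpa using this
    refine (Ideal.height_le_card_of_mem_minimalPrimes_span (Set.toFinite _) hmin).trans ?_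
    have h3 : ({xs p SA gA gA_mem, xs p SA gE gE_mem,
        xs p SA gB gB_mem + xs p SA gC gC_mem} : Set (AA p)).ncard ≤ 3 :=
      (Set.ncard_insert_le _ _).trans (Nat.succ_le_succ ((Set.ncard_insert_le _ _).trans
        (by rw [Set.ncard_singleton])))
    exact_mod_cast h3
  · let l1 : G →+ ℤ := Pi.evalAddMonoidHom (fun _ => ℤ) 0
    let l2 : G →+ ℤ := Pi.evalAddMonoidHom (fun _ => ℤ) 2
    have h1 : ∀ u ∈ SA, 0 ≤ l1 u := fun u hu => (mem_SA.1 hu).1
    have h2 : ∀ u ∈ SA, 0 ≤ l2 u := fun u hu => (mem_SA.1 hu).2.2.1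
    let P1 : Ideal (AA p) := RingHom.ker (face p l1 h1)
    let P2 : Ideal (AA p) := RingHom.ker ((face p l2 h2).comp (face p l1 h1))
    have : P1.IsPrime := RingHom.ker_isPrime _
    have : P2.IsPrime := RingHom.ker_isPrime _
    have a1 : (⊥ : Ideal (AA p)) < P1 := by
      refine bot_lt_iff_ne_bot.2 (fun h => ?_)
      have : xs p SA gC gC_mem ∈ P1 := by
        rw [RingHom.mem_ker, face_xs, if_neg (by simp [l1, gC])]
      rw [h] at this
      exact xs_ne_zero p _ this
    have a2 : P1 < P2 := by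
      refine lt_of_le_of_ne ?_ (fun h => ?_)
      · intro y hy
        rw [RingHom.mem_ker] at hy ⊢
        rw [AlgHom.comp_apply, hy, map_zero]
      · have : xs p SA gB gB_mem ∈ P2 := by
          rw [RingHom.mem_ker, AlgHom.comp_apply, face_xs, if_pos (by simp [l1, gB]), face_xs,
            if_neg (by simp [l2, gB])]
        rw [← h, RingHom.mem_ker, face_xs, if_pos (by simp [l1, gB])] at this
        exact xs_ne_zero p _ this
    have a3 : P2 < mA p := by
      refine lt_of_le_of_ne ?_ (fun h => ?_)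
      · intro y hy
        rw [RingHom.mem_ker, AlgHom.comp_apply] at hy
        rw [mA, RingHom.mem_ker, ← aug_face p l1 h1, ← aug_face p l2 h2, hy, map_zero]
      · have : xs p SA gA gA_mem ∈ mA p := xs_mem_mA p _ (by rw [Ne, eq_zero_iff]; simp [gA])
        rw [← h, RingHom.mem_ker, AlgHom.comp_apply, face_xs, if_pos (by simp [l1, gA]), face_xs,
            if_pos (by simp [l2, gA])] at this
        exact xs_ne_zero p _ this
    have b1 := Ideal.height_add_one_le_of_lt_of_isPrime a1
    have b2 := Ideal.height_add_one_le_of_lt_of_isPrime a2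
    have b3 := Ideal.height_add_one_le_of_lt_of_isPrime a3
    rw [Ideal.height_bot] at b1
    calc (3 : ℕ∞) = 0 + 1 + 1 + 1 := by norm_num
      _ ≤ P1.height + 1 + 1 := by gcongr
      _ ≤ P2.height + 1 := by gcongr
      _ ≤ _ := b3

end Pool.Agent.H781Z.FSig
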